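import Pool.Agent.NH62.LN.Stm

/-!
# Project LN: algebra of the regularised field
-/

set_option autoImplicit false

namespace Pool.Agent.NH62.LN

open Pool.Agent.W821.TB Filter Topology

namespace ALG

theorem Fr_mul (A R : ℝ) {c : ℂ} (hc : ‖c‖ = 1) (w : ℂ) : Fr A R (c * w) = c * Fr A R w := by
  unfold Fr
  rw [norm_mul, hc, one_mul]
  ring

theorem Fr_neg (A R : ℝ) (w : ℂ) : Fr A R (-w) = -Fr A R w := by
  unfold Fr
  rw [norm_neg]
  ring

theorem Fr_good {A R : ℝ} (hA : 0 < A) {w : ℂ} (h1 : 2 * A < ‖w‖ ^ 2) (h2 : ‖w‖ ^ 2 < R) :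
    Fr A R w = ((1 / ‖w‖ ^ 3 : ℝ) : ℂ) * w := by
  unfold Fr
  rw [Real.smoothTransition.one_of_one_le, Real.smoothTransition.zero_of_nonpos (by linarith),
    sub_zero, mul_one]
  rw [le_div_iff₀ hA]
  linarith

variable {n : ℕ}

theorem X_smul (m : Fin n → ℝ) (A R : ℝ) {c : ℂ} (hc : ‖c‖ = 1) (z : Ph n) :
    X m A R (c • z) = c • X m A R z := by
  refine Prod.ext rfl (funext fun a => ?_)
  show ∑ b ∈ Finset.univ.erase a, (m b : ℂ) * Fr A R ((c • z).1 b - (c • z).1 a) =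
    c * ∑ b ∈ Finset.univ.erase a, (m b : ℂ) * Fr A R (z.1 b - z.1 a)
  rw [Finset.mul_sum]
  refine Finset.sum_congr rfl fun b _ => ?_
  have e : (c • z).1 b - (c • z).1 a = c * (z.1 b - z.1 a) := by simp [mul_sub]
  rw [e, Fr_mul A R hc]
  ring

theorem X_com (m : Fin n → ℝ) (A R : ℝ) {z : Ph n} (hz : z ∈ com m) : X m A R z ∈ com m := by
  obtain ⟨-, h2⟩ := hz
  refine ⟨h2, ?_⟩
  show ∑ a, (m a : ℂ) * ∑ b ∈ Finset.univ.erase a, (m b : ℂ) * Fr A R (z.1 b - z.1 a) = 0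
  have e1 : ∑ a, (m a : ℂ) * ∑ b ∈ Finset.univ.erase a, (m b : ℂ) * Fr A R (z.1 b - z.1 a) =
      ∑ a, ∑ b ∈ Finset.univ.erase a, (m a : ℂ) * ((m b : ℂ) * Fr A R (z.1 b - z.1 a)) :=
    Finset.sum_congr rfl fun a _ => Finset.mul_sum _ _ _
  have e2 : ∑ a, ∑ b ∈ Finset.univ.erase a, (m a : ℂ) * ((m b : ℂ) * Fr A R (z.1 b - z.1 a)) =
      ∑ b, ∑ a ∈ Finset.univ.erase b, (m a : ℂ) * ((m b : ℂ) * Fr A R (z.1 b - z.1 a)) := by
    refine Finset.sum_comm' fun a b => ?_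
    simp only [Finset.mem_univ, Finset.mem_erase, true_and, and_true]
    exact ⟨fun h => h.symm, fun h => h.symm⟩
  have e3 : ∑ b, ∑ a ∈ Finset.univ.erase b, (m a : ℂ) * ((m b : ℂ) * Fr A R (z.1 b - z.1 a)) =
      -∑ a, ∑ b ∈ Finset.univ.erase a, (m a : ℂ) * ((m b : ℂ) * Fr A R (z.1 b - z.1 a)) := by
    rw [← Finset.sum_neg_distrib]
    refine Finset.sum_congr rfl fun b _ => ?_
    rw [← Finset.sum_neg_distrib]
    refine Finset.sum_congr rfl fun a _ => ?_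
    rw [← neg_sub (z.1 a) (z.1 b), Fr_neg]
    ring
  rw [e1]
  exact self_eq_neg.1 (e2.trans e3)

theorem X_good (m : Fin n → ℝ) {A R : ℝ} (hA : 0 < A) {z : Ph n} (hz : Good A R z) :
    X m A R z = vf m z := by
  refine Prod.ext rfl (funext fun a => ?_)
  show ∑ b ∈ Finset.univ.erase a, (m b : ℂ) * Fr A R (z.1 b - z.1 a) =
    ∑ b ∈ Finset.univ.erase a, ((m b / ‖z.1 b - z.1 a‖ ^ 3 : ℝ) : ℂ) * (z.1 b - z.1 a)
  refine Finset.sum_congr rfl fun b hb => ?_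
  obtain ⟨h1, h2⟩ := hz a b (Finset.ne_of_mem_erase hb).symm
  rw [Fr_good hA h1 h2]
  push_cast
  ring

theorem com_smul (m : Fin n → ℝ) (c : ℂ) {z : Ph n} (hz : z ∈ com m) : c • z ∈ com m := by
  obtain ⟨h1, h2⟩ := hz
  constructor
  · have e : ∑ a, (m a : ℂ) * (c • z).1 a = c * ∑ a, (m a : ℂ) * z.1 a := by
      rw [Finset.mul_sum]
      exact Finset.sum_congr rfl fun a _ => by simp; ring
    rw [e, h1, mul_zero]
  · have e : ∑ a, (m a : ℂ) * (c • z).2 a = c * ∑ a, (m a : ℂ) * z.2 a := by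
      rw [Finset.mul_sum]
      exact Finset.sum_congr rfl fun a _ => by simp; ring
    rw [e, h2, mul_zero]

theorem diff_smul (c : ℂ) (z : Ph n) (a b : Fin n) :
    (c • z).1 b - (c • z).1 a = c * (z.1 b - z.1 a) := by simp [mul_sub]

theorem norm_diff {c : ℂ} (hc : ‖c‖ = 1) (z : Ph n) (a b : Fin n) :
    ‖(c • z).1 b - (c • z).1 a‖ = ‖z.1 b - z.1 a‖ := by
  rw [diff_smul, norm_mul, hc, one_mul]

theorem energy_smul (m : Fin n → ℝ) {c : ℂ} (hc : ‖c‖ = 1) (z : Ph n) :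
    energy m (c • z) = energy m z := by
  unfold energy
  have e1 : ∀ a, ‖(c • z).2 a‖ = ‖z.2 a‖ := fun a => by
    show ‖c * z.2 a‖ = _
    rw [norm_mul, hc, one_mul]
  simp only [e1, norm_diff hc]

theorem angm_smul (m : Fin n → ℝ) {c : ℂ} (hc : ‖c‖ = 1) (z : Ph n) :
    angm m (c • z) = angm m z := by
  unfold angm
  refine Finset.sum_congr rfl fun a _ => ?_
  have e : (starRingEnd ℂ) ((c • z).1 a) * (c • z).2 a = (starRingEnd ℂ) (z.1 a) * z.2 a := by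
    show (starRingEnd ℂ) (c * z.1 a) * (c * z.2 a) = _
    have h1 : (starRingEnd ℂ) c * c = 1 := by
      rw [← Complex.normSq_eq_conj_mul_self, Complex.normSq_eq_norm_sq, hc]
      norm_num
    rw [map_mul]
    linear_combination ((starRingEnd ℂ) (z.1 a) * z.2 a) * h1
  rw [e]

theorem good_open (A R : ℝ) : IsOpen {z : Ph n | Good A R z} := by
  have e : {z : Ph n | Good A R z} = ⋂ (a : Fin n) (b : Fin n) (_ : a ≠ b),
      {z : Ph n | 2 * A < ‖z.1 b - z.1 a‖ ^ 2} ∩ {z : Ph n | ‖z.1 b - z.1 a‖ ^ 2 < R} := by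
    ext z
    simp only [Set.mem_iInter, Set.mem_inter_iff]
    exact Iff.rfl
  rw [e]
  refine isOpen_iInter_of_finite fun a => isOpen_iInter_of_finite fun b =>
    isOpen_iInter_of_finite fun _ => IsOpen.inter ?_ ?_
  · exact isOpen_lt continuous_const (by fun_prop)
  · exact isOpen_lt (by fun_prop) continuous_const

end ALG

open ALG in
theorem t_ALG : S_ALG := by
  intro n m A R hA
  refine ⟨fun c z hc => X_smul m A R hc z, fun z hz => X_com m A R hz,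
    fun z hz => X_good m hA hz, fun c z _ hz => com_smul m c hz,
    fun c z hc => ⟨energy_smul m hc z, angm_smul m hc z⟩, fun c z hc hz a b hab => ?_,
    good_open A R⟩
  rw [norm_diff hc]
  exact hz a b hab

end Pool.Agent.NH62.LN
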