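import Pool.Agent.NH62.LN.Asm

/-!
# Nondegenerate relative periodic orbits cannot lie near Lyapunov stable orbits: assembly
-/

set_option autoImplicit false

namespace Pool.Agent.NH62.LN

open Pool.Agent.W821.TB Filter Topology
open scoped NNReal

variable {n : ℕ} {m : Fin n → ℝ}

theorem asm2 (hREG : S_REG) (hALG : S_ALG) (hFLO : S_FLO) (hINV : S_INV) (hLIN : S_LIN) (hSMO : S_SMO)
    (hIND : S_IND) (hCON : S_CON) (hNBD : S_NBD) (hn : 2 ≤ n) (hm : ∀ a, 0 < m a) {x : ℝ → Ph n}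
    (hx : IsSol m Set.univ x) {τ : ℝ} (hτ : 0 < τ) {c : ℂ} (hc : ‖c‖ = 1) (hper : ∀ t, x (t + τ) = c • x t)
    (hne : ¬ IsRelEq x)
    (hnd : ∀ ξ : ℝ → Ph n, (∀ t, ξ t ∈ com m) → (∀ t, HasDerivAt ξ (fderiv ℝ (vf m) (x t) (ξ t)) t) →
      (∀ t, ξ (t + τ) = c • ξ t) → ∃ α β : ℝ, ∀ t, ξ t = α • vf m (x t) + β • (Complex.I • x t))
    {K₁ : ℕ} (hK₁ : 1 ≤ K₁) {U : Set (Ph n)} (hU : IsOpen U) (hxU : x 0 ∈ U)
    (hlock : ∀ y : ℝ → Ph n, IsSol m (Set.Ici 0) y → y 0 ∈ U → ∀ c : ℂ, ‖c‖ = 1 →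
      (∀ z ∈ closure (y '' Set.Ici 0), c • z ∈ closure (y '' Set.Ici 0)) → c ^ K₁ = 1) : False := by
  have hdp : ∀ t a b, ‖(x (t + τ)).1 a - (x (t + τ)).1 b‖ = ‖(x t).1 a - (x t).1 b‖ := by
    intro t a b
    rw [hper t]
    have : (c • x t).1 a - (c • x t).1 b = c * ((x t).1 a - (x t).1 b) := by simp [mul_sub]
    rw [this, norm_mul, hc, one_mul]
  obtain ⟨A, R, hA, hGood⟩ := hNBD.1 n x τ hτ hx.continuous hdp fun t => (hx.mem t).1
  obtain ⟨hXC, K, hXK⟩ := hREG n m A R hA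
  obtain ⟨aRot, aCom, aVf, aComRot, aEJ, aGoodRot, aOpen⟩ := hALG n m A R hA
  obtain ⟨g, g0, gd, gC, gu, gv⟩ := hFLO (Ph n) (X m A R) K hXC hXK
  obtain ⟨iW, iL⟩ := hINV (Ph n) (X m A R) K g hXC hXK g0 gd
  have hgW : ∀ t, ∀ z ∈ com m, g t z ∈ com m := iW (com m) aCom
  have hgL : ∀ (c : ℂ), ‖c‖ = 1 → ∀ t z, g t (c • z) = c • g t z := by
    intro c hc t z
    exact iL (c • ContinuousLinearMap.id ℝ (Ph n)) (fun z => aRot c z hc) t z
  have hgadd : ∀ t s z, g (t + s) z = g t (g s z) := by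
    intro t s z
    have := gu (fun s => g s z) (fun t => gd z t) s t
    rw [add_comm] at this
    exact this
  have hxX : ∀ t, HasDerivAt x (X m A R (x t)) t := by
    intro t
    rw [aVf _ (hGood t)]
    exact hx.hasDerivAt t
  have hxg : ∀ t, x t = g t (x 0) := by
    intro t
    have := gu x hxX 0 t
    rwa [zero_add] at this
  obtain ⟨θ₀, hθ₀⟩ := exists_angle hc
  have hx0 : x 0 ∈ com m := (hx.mem 0).2
  have hgτ : g τ (x 0) = c • x 0 := by
    rw [← hxg τ]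
    have := hper 0
    rwa [zero_add] at this
  have hexp : ∀ θ : ℝ, ‖Complex.exp (-(θ * Complex.I))‖ = 1 := by
    intro θ
    have : -((θ : ℂ) * Complex.I) = ((-θ : ℝ) : ℂ) * Complex.I := by push_cast; ring
    rw [this]; exact norm_expI _
  have hexpi : ∀ θ : ℝ, Complex.exp (θ * Complex.I) * Complex.exp (-(θ * Complex.I)) = 1 := by
    intro θ
    rw [← Complex.exp_add, add_neg_cancel, Complex.exp_zero]
  -- smoothness of the time maps
  have gCt : ∀ t, ContDiff ℝ 1 (g t) := fun t =>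
    gC.comp (contDiff_const.prodMk contDiff_id : ContDiff ℝ 1 fun z : Ph n => (t, z))
  have gdiff : ∀ t z, HasFDerivAt (g t) (fderiv ℝ (g t) z) z := fun t z =>
    ((gCt t).differentiable one_ne_zero z).hasFDerivAt
  set G : ℝ × Ph n → Ph n := fun p => Complex.exp (-(p.1 * Complex.I)) • g τ p.2 - p.2 with hG
  have hGC : ContDiff ℝ 1 G := by
    have h0 : ContDiff ℝ 1 fun p : ℝ × Ph n => (p.1 : ℂ) := Complex.ofRealCLM.contDiff.comp contDiff_fst
    have h1 : ContDiff ℝ 1 fun p : ℝ × Ph n => Complex.exp (-(p.1 * Complex.I)) :=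
      ((h0.mul contDiff_const).neg).cexp
    have h2 : ContDiff ℝ 1 fun p : ℝ × Ph n => g τ p.2 := (gCt τ).comp contDiff_snd
    exact (h1.smul h2).sub contDiff_snd
  have hG0 : G (θ₀, x 0) = 0 := by
    rw [hG]
    simp only
    rw [hgτ, hθ₀, smul_smul, mul_comm, hexpi, one_smul, sub_self]
  have hGW : ∀ p : ℝ × Ph n, p.2 ∈ com m → G p ∈ com m := fun p hp =>
    (com m).sub_mem (aComRot _ _ (hexp p.1) (hgW τ _ hp)) hp
  have hN1 : ∀ᶠ z in 𝓝 (x 0), ∀ t ∈ Set.Icc 0 τ, Good A R (g t z) :=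
    hNBD.2 n g A R τ (x 0) gC.continuous fun t _ => by rw [← hxg t]; exact hGood t
  have hnc : ∀ z : Ph n, Good A R z → ∀ a b, a ≠ b → z.1 a ≠ z.1 b := by
    intro z hz a b hab h
    have := (hz a b hab).1
    rw [h, sub_self, norm_zero] at this
    norm_num at this
    linarith
  have hcons : ∀ z : Ph n, (∀ t ∈ Set.Icc 0 τ, Good A R (g t z)) →
      energy m (g τ z) = energy m z ∧ angm m (g τ z) = angm m z := by
    intro z hz
    have h := hCON n m (fun t => g t z) τ hτ.le fun t ht => by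
      refine ⟨?_, hnc _ (hz t ht)⟩
      rw [← aVf _ (hz t ht)]
      exact gd z t
    simpa only [g0] using h
  have hEJ : ∀ᶠ p in 𝓝 (θ₀, x 0), p.2 ∈ com m →
      energy m (p.2 + G p) = energy m p.2 ∧ angm m (p.2 + G p) = angm m p.2 := by
    have h1 : ∀ᶠ p : ℝ × Ph n in 𝓝 (θ₀, x 0), ∀ t ∈ Set.Icc 0 τ, Good A R (g t p.2) :=
      (continuous_snd.tendsto (θ₀, x 0)).eventually hN1
    filter_upwards [h1] with p hp _
    have e : p.2 + G p = Complex.exp (-(p.1 * Complex.I)) • g τ p.2 := by rw [hG]; simp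
    obtain ⟨b1, b2⟩ := aEJ _ (g τ p.2) (hexp p.1)
    obtain ⟨b3, b4⟩ := hcons p.2 hp
    rw [e]
    exact ⟨b1.trans b3, b2.trans b4⟩
  -- the kernel
  have hker : ∀ ξ ∈ com m, fderiv ℝ (fun z => G (θ₀, z)) (x 0) ξ = 0 →
      ∃ a b : ℝ, ξ = a • vf m (x 0) + b • (Complex.I • x 0) := by
    intro ξ₀ hξ₀ hk
    have hd1 : HasFDerivAt (fun z => G (θ₀, z))
        (Complex.exp (-(θ₀ * Complex.I)) • fderiv ℝ (g τ) (x 0) - ContinuousLinearMap.id ℝ (Ph n)) (x 0) :=
      ((gdiff τ (x 0)).const_smul (Complex.exp (-(θ₀ * Complex.I)))).sub (hasFDerivAt_id (x 0))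
    rw [hd1.fderiv] at hk
    have hk2 : Complex.exp (-(θ₀ * Complex.I)) • fderiv ℝ (g τ) (x 0) ξ₀ = ξ₀ := sub_eq_zero.1 hk
    have hk3 : fderiv ℝ (g τ) (x 0) ξ₀ = c • ξ₀ := by
      have h := congrArg (fun v : Ph n => Complex.exp (θ₀ * Complex.I) • v) hk2
      simp only [smul_smul, hexpi, one_smul] at h
      rw [hθ₀]
      exact h
    have k1 : ∀ t, fderiv ℝ (g t) (x 0) ξ₀ ∈ com m := by
      intro t
      have h1 : HasDerivAt (fun s : ℝ => x 0 + s • ξ₀) ξ₀ 0 := by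
        simpa using ((hasDerivAt_id (0 : ℝ)).smul_const ξ₀).const_add (x 0)
      have h2 : HasFDerivAt (g t) (fderiv ℝ (g t) (x 0)) (x 0 + (0 : ℝ) • ξ₀) := by simpa using gdiff t (x 0)
      have h3 := h2.comp_hasDerivAt (0 : ℝ) h1
      exact deriv_mem (com m) h3 fun s => hgW t _ ((com m).add_mem hx0 ((com m).smul_mem s hξ₀))
    have k2 : ∀ t, HasDerivAt (fun t => fderiv ℝ (g t) (x 0) ξ₀)
        (fderiv ℝ (vf m) (x t) (fderiv ℝ (g t) (x 0) ξ₀)) t := by
      intro t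
      have h1 := gv (x 0) ξ₀ t
      rw [← hxg t] at h1
      have h2 : fderiv ℝ (X m A R) (x t) = fderiv ℝ (vf m) (x t) := by
        refine Filter.EventuallyEq.fderiv_eq ?_
        filter_upwards [aOpen.mem_nhds (hGood t)] with z hz
        exact aVf z hz
      rwa [h2] at h1
    have k3 : ∀ t, fderiv ℝ (g (t + τ)) (x 0) ξ₀ = c • fderiv ℝ (g t) (x 0) ξ₀ := by
      intro t
      have h1 : g (t + τ) = fun z => g t (g τ z) := funext fun z => hgadd t τ z
      have h2 : HasFDerivAt (fun z => g t (g τ z)) ((fderiv ℝ (g t) (g τ (x 0))).comp (fderiv ℝ (g τ) (x 0))) (x 0) :=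
        (gdiff t (g τ (x 0))).comp (x 0) (gdiff τ (x 0))
      rw [h1, h2.fderiv, ContinuousLinearMap.comp_apply, hk3, hgτ]
      have h3 : HasFDerivAt (fun z : Ph n => g t (c • z))
          ((fderiv ℝ (g t) (c • x 0)).comp (c • ContinuousLinearMap.id ℝ (Ph n))) (x 0) :=
        (gdiff t (c • x 0)).comp (x 0) ((hasFDerivAt_id (x 0)).const_smul c)
      have h4 : HasFDerivAt (fun z : Ph n => g t (c • z)) (c • fderiv ℝ (g t) (x 0)) (x 0) := by
        have : (fun z : Ph n => g t (c • z)) = fun z => c • g t z := funext fun z => hgL c hc t z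
        rw [this]
        exact (gdiff t (x 0)).const_smul c
      exact congrArg (fun L : Ph n →L[ℝ] Ph n => L ξ₀) (h3.unique h4)
    obtain ⟨α, β, hαβ⟩ := hnd (fun t => fderiv ℝ (g t) (x 0) ξ₀) k1 k2 k3
    refine ⟨α, β, ?_⟩
    have h0 := hαβ 0
    have hg0 : g 0 = id := by funext z; exact g0 z
    simp only [hg0, fderiv_id, ContinuousLinearMap.id_apply] at h0
    exact h0
  -- locking
  have hmain := hLIN (Ph n) (com m) G θ₀ (x 0) (vf m (x 0)) (Complex.I • x 0) (energy m) (angm m) hx0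
    hGC.contDiffAt hG0 (Eventually.of_forall hGW) (hSMO n m (x 0) (hx.mem 0).1).1
    (hSMO n m (x 0) (hx.mem 0).1).2 hEJ (hIND n m x hn hm hx hne) hker
    ({z | ∀ t ∈ Set.Icc 0 τ, Good A R (g t z)} ∩ U) (inter_mem hN1 (hU.mem_nhds hxU))
  have hroot : ∀ᶠ θ : ℝ in 𝓝 θ₀, Complex.exp (K₁ * (θ * Complex.I)) = 1 := by
    filter_upwards [hmain] with θ hθ
    obtain ⟨z, ⟨hzN, hzU⟩, hzW, hzG⟩ := hθ
    have hgz : g τ z = Complex.exp (θ * Complex.I) • z := by
      have h1 : Complex.exp (-(θ * Complex.I)) • g τ z = z := sub_eq_zero.1 hzG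
      conv_rhs => rw [← h1]
      rw [smul_smul, hexpi, one_smul]
    have hcθ : ‖Complex.exp (θ * Complex.I)‖ = 1 := norm_expI θ
    have hyp : ∀ t, g (t + τ) z = Complex.exp (θ * Complex.I) • g t z := by
      intro t
      rw [hgadd, hgz, hgL _ hcθ]
    have hper' : Function.Periodic (fun t => Good A R (g t z)) τ := by
      intro t
      simp only
      rw [hyp t]
      refine propext ⟨fun h => ?_, fun h => aGoodRot _ _ hcθ h⟩
      have := aGoodRot _ _ (hexp θ) h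
      rwa [smul_smul, mul_comm, hexpi, one_smul] at this
    have hgood : ∀ t, Good A R (g t z) := by
      intro t
      obtain ⟨s, hs, hts⟩ := hper'.exists_mem_Ico₀ hτ t
      have hts' : Good A R (g t z) = Good A R (g s z) := hts
      rw [hts']
      exact hzN s ⟨hs.1, hs.2.le⟩
    have hsol : IsSol m Set.univ (fun t => g t z) := by
      refine isSol_of (fun t => ⟨hnc _ (hgood t), hgW t z hzW⟩) fun t => ?_
      have := gd z t
      rw [aVf _ (hgood t)] at this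
      exact this
    have := hlock (fun t => g t z) (hsol.restrict _) (by simpa only [g0] using hzU) _ hcθ
      (closure_invariant hτ hyp)
    rw [Complex.exp_nat_mul]
    exact this
  have hK0 : (K₁ : ℂ) ≠ 0 := by
    have : K₁ ≠ 0 := by omega
    exact_mod_cast this
  have h1 : HasDerivAt (fun θ : ℝ => Complex.exp (K₁ * (θ * Complex.I)))
      (Complex.exp (K₁ * (θ₀ * Complex.I)) * (K₁ * (1 * Complex.I))) θ₀ := by
    have h2 : HasDerivAt (fun θ : ℝ => (θ : ℂ)) 1 θ₀ := Complex.ofRealCLM.hasDerivAt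
    exact ((h2.mul_const Complex.I).const_mul (K₁ : ℂ)).cexp
  have h3 : HasDerivAt (fun θ : ℝ => Complex.exp (K₁ * (θ * Complex.I))) 0 θ₀ :=
    (hasDerivAt_const θ₀ (1 : ℂ)).congr_of_eventuallyEq hroot
  have h4 := h1.unique h3
  simp only [one_mul, mul_eq_zero, Complex.exp_ne_zero, hK0, Complex.I_ne_zero, or_self] at h4

end Pool.Agent.NH62.LN
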