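import Pool.Agent.NH62.LN.Stm
import Pool.Agent.W821.TB.Ang

/-!
# Conservation laws on an interval, smoothness of energy and angular momentum (LN-CON, LN-SMO)

The lemmas on the derivative of the energy are those of `Pool.Agent.W821.TB.Pot` and `Pool.Agent.W821.TB.Fam`.
-/

set_option autoImplicit false

namespace Pool.Agent.NH62.LN

namespace CON

open Complex Finset Filter Topology ComplexConjugate
open Pool.Agent.W821.TB (Ph acc hasDerivAt_conj hasDerivAt_imc hasDerivAt_rec torque_zero vf ang)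

variable {n : ℕ} {m : Fin n → ℝ}

/-- real inner product -/
noncomputable def ip (a b : ℂ) : ℝ := (conj a * b).re

theorem ip_eq (a b : ℂ) : ip a b = a.re * b.re + a.im * b.im := by
  unfold ip
  simp only [Complex.mul_re, Complex.conj_re, Complex.conj_im]; ring

theorem ip_self (a : ℂ) : ip a a = ‖a‖ ^ 2 := by
  rw [ip_eq, ← Complex.normSq_eq_norm_sq, Complex.normSq_apply]

/-- potential function (positive) -/
noncomputable def upot (m : Fin n → ℝ) (q : Fin n → ℂ) : ℝ :=
  (∑ a, ∑ b ∈ univ.erase a, m a * m b / ‖q b - q a‖) / 2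

theorem hasDerivAt_ip {f g : ℝ → ℂ} {f' g' : ℂ} {t : ℝ} (hf : HasDerivAt f f' t)
    (hg : HasDerivAt g g' t) : HasDerivAt (fun s => ip (f s) (g s)) (ip f' (g t) + ip (f t) g') t := by
  have := hasDerivAt_rec ((hasDerivAt_conj hf).mul hg)
  refine this.congr_deriv ?_
  unfold ip
  rw [Complex.add_re]

theorem hasDerivAt_inv_norm {z : ℝ → ℂ} {z' : ℂ} {t : ℝ} (hz : HasDerivAt z z' t) (h0 : z t ≠ 0) :
    HasDerivAt (fun s => 1 / ‖z s‖) (-(ip (z t) z') / ‖z t‖ ^ 3) t := by
  have hpos : 0 < ‖z t‖ := norm_pos_iff.2 h0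
  have h1 : HasDerivAt (fun s => ‖z s‖ ^ 2) (2 * ip (z t) z') t := by
    have h := hasDerivAt_ip hz hz
    have e : (fun s => ip (z s) (z s)) = fun s => ‖z s‖ ^ 2 := by funext s; exact ip_self _
    rw [e] at h
    refine h.congr_deriv ?_
    rw [ip_eq, ip_eq]; ring
  have h2 := h1.sqrt (by positivity)
  have e2 : (fun s => √(‖z s‖ ^ 2)) = fun s => ‖z s‖ := by
    funext s; exact Real.sqrt_sq (norm_nonneg _)
  rw [e2, Real.sqrt_sq hpos.le] at h2
  have h3 := (hasDerivAt_const t (1 : ℝ)).div h2 hpos.ne'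
  refine h3.congr_deriv ?_
  field_simp
  ring

/-- double sums over ordered pairs can be antisymmetrised -/
theorem sum_swap (f : Fin n → Fin n → ℝ) :
    ∑ a, ∑ b ∈ univ.erase a, f a b = ∑ a, ∑ b ∈ univ.erase a, f b a := by
  have h : ∀ g : Fin n → Fin n → ℝ, ∑ a, ∑ b ∈ univ.erase a, g a b =
      ∑ a, ∑ b, if a ≠ b then g a b else 0 := by
    intro g
    refine Finset.sum_congr rfl fun a _ => ?_
    rw [← Finset.sum_filter]
    refine Finset.sum_congr ?_ fun _ _ => rfl
    ext b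
    simp [eq_comm]
  rw [h, h, Finset.sum_comm]
  refine Finset.sum_congr rfl fun a _ => Finset.sum_congr rfl fun b _ => ?_
  simp only [ne_comm]

theorem ip_acc (q : Fin n → ℂ) (a : Fin n) (w : ℂ) :
    ip (acc m q a) w = ∑ b ∈ univ.erase a, m b / ‖q b - q a‖ ^ 3 * ip (q b - q a) w := by
  unfold acc ip
  rw [map_sum, Finset.sum_mul, Complex.re_sum]
  refine Finset.sum_congr rfl fun b _ => ?_
  rw [map_mul, Complex.conj_ofReal, mul_assoc, Complex.re_ofReal_mul]

theorem hasDerivAt_upot {q : ℝ → Fin n → ℂ} {ξ : Fin n → ℂ} {t : ℝ}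
    (hq : ∀ a, HasDerivAt (fun s => q s a) (ξ a) t) (hne : ∀ a b, a ≠ b → q t a ≠ q t b) :
    HasDerivAt (fun s => upot m (q s)) (∑ a, m a * ip (acc m (q t) a) (ξ a)) t := by
  have h1 : ∀ a, ∀ b ∈ univ.erase a, HasDerivAt (fun s => m a * m b / ‖q s b - q s a‖)
      (m a * m b * (-(ip (q t b - q t a) (ξ b - ξ a)) / ‖q t b - q t a‖ ^ 3)) t := by
    intro a b hb
    have hz : HasDerivAt (fun s => q s b - q s a) (ξ b - ξ a) t := (hq b).sub (hq a)
    have h0 : q t b - q t a ≠ 0 := sub_ne_zero.2 (hne b a (Finset.ne_of_mem_erase hb))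
    have := (hasDerivAt_inv_norm hz h0).const_mul (m a * m b)
    have e : (fun s => m a * m b * (1 / ‖q s b - q s a‖)) = fun s => m a * m b / ‖q s b - q s a‖ := by
      funext s; ring
    rw [e] at this
    exact this
  have h2 : HasDerivAt (fun s => ∑ a, ∑ b ∈ univ.erase a, m a * m b / ‖q s b - q s a‖)
      (∑ a, ∑ b ∈ univ.erase a,
        m a * m b * (-(ip (q t b - q t a) (ξ b - ξ a)) / ‖q t b - q t a‖ ^ 3)) t :=
    HasDerivAt.fun_sum fun a _ => HasDerivAt.fun_sum fun b hb => h1 a b hb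
  have h3 := h2.div_const 2
  refine h3.congr_deriv ?_
  have e1 : ∑ a, m a * ip (acc m (q t) a) (ξ a) =
      ∑ a, ∑ b ∈ univ.erase a, m a * m b / ‖q t b - q t a‖ ^ 3 * ip (q t b - q t a) (ξ a) := by
    refine Finset.sum_congr rfl fun a _ => ?_
    rw [ip_acc, Finset.mul_sum]
    refine Finset.sum_congr rfl fun b _ => ?_
    ring
  have e2 : ∑ a, ∑ b ∈ univ.erase a, m a * m b / ‖q t b - q t a‖ ^ 3 * ip (q t b - q t a) (ξ a) =
      ∑ a, ∑ b ∈ univ.erase a, -(m a * m b / ‖q t b - q t a‖ ^ 3 * ip (q t b - q t a) (ξ b)) := by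
    rw [sum_swap]
    refine Finset.sum_congr rfl fun a _ => Finset.sum_congr rfl fun b _ => ?_
    rw [norm_sub_rev (q t a) (q t b), ip_eq, ip_eq]
    simp only [Complex.sub_re, Complex.sub_im]
    ring
  have e3 : ∑ a, ∑ b ∈ univ.erase a,
        m a * m b * (-(ip (q t b - q t a) (ξ b - ξ a)) / ‖q t b - q t a‖ ^ 3) =
      (∑ a, ∑ b ∈ univ.erase a, m a * m b / ‖q t b - q t a‖ ^ 3 * ip (q t b - q t a) (ξ a)) +
      ∑ a, ∑ b ∈ univ.erase a, -(m a * m b / ‖q t b - q t a‖ ^ 3 * ip (q t b - q t a) (ξ b)) := by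
    rw [← Finset.sum_add_distrib]
    refine Finset.sum_congr rfl fun a _ => ?_
    rw [← Finset.sum_add_distrib]
    refine Finset.sum_congr rfl fun b _ => ?_
    simp only [ip_eq, Complex.sub_re, Complex.sub_im]
    ring
  rw [e1, e3, ← e2]
  ring

/-- derivative of the energy along a curve of phase points -/
theorem hasDerivAt_energy {z : ℝ → Ph n} {ξ η : Fin n → ℂ} {t : ℝ}
    (h1 : ∀ a, HasDerivAt (fun s => (z s).1 a) (ξ a) t)
    (h2 : ∀ a, HasDerivAt (fun s => (z s).2 a) (η a) t) (hne : ∀ a b, a ≠ b → (z t).1 a ≠ (z t).1 b) :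
    HasDerivAt (fun s => energy m (z s))
      (∑ a, m a * ip ((z t).2 a) (η a) - ∑ a, m a * ip (acc m (z t).1 a) (ξ a)) t := by
  unfold energy
  have hk : HasDerivAt (fun s => (∑ a, m a * ‖(z s).2 a‖ ^ 2) / 2)
      (∑ a, m a * ip ((z t).2 a) (η a)) t := by
    have e : (fun s => (∑ a, m a * ‖(z s).2 a‖ ^ 2) / 2) =
        fun s => (∑ a, m a * ip ((z s).2 a) ((z s).2 a)) / 2 := by
      funext s; simp only [ip_self]
    rw [e]
    have h3 : ∀ a ∈ (univ : Finset (Fin n)), HasDerivAt (fun s => m a * ip ((z s).2 a) ((z s).2 a))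
        (m a * (ip (η a) ((z t).2 a) + ip ((z t).2 a) (η a))) t := fun a _ =>
      (hasDerivAt_ip (h2 a) (h2 a)).const_mul _
    have h4 := (HasDerivAt.fun_sum h3).div_const 2
    refine h4.congr_deriv ?_
    rw [Finset.sum_div]
    refine Finset.sum_congr rfl fun a _ => ?_
    simp only [ip_eq]; ring
  exact hk.sub (hasDerivAt_upot h1 hne)

theorem fst_deriv {z : ℝ → Ph n} {z' : Ph n} {t : ℝ} (h : HasDerivAt z z' t) (a : Fin n) :
    HasDerivAt (fun s => (z s).1 a) (z'.1 a) t := by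
  have h1 := h.hasFDerivAt.fst.hasDerivAt
  have h2 := (hasDerivAt_pi.1 (by simpa using h1)) a
  simpa using h2

theorem snd_deriv {z : ℝ → Ph n} {z' : Ph n} {t : ℝ} (h : HasDerivAt z z' t) (a : Fin n) :
    HasDerivAt (fun s => (z s).2 a) (z'.2 a) t := by
  have h1 := h.hasFDerivAt.snd.hasDerivAt
  have h2 := (hasDerivAt_pi.1 (by simpa using h1)) a
  simpa using h2


theorem const_of {f : ℝ → ℝ} {τ : ℝ} (hτ : 0 ≤ τ) (h : ∀ t ∈ Set.Icc 0 τ, HasDerivAt f 0 t) :
    f τ = f 0 :=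
  constant_of_has_deriv_right_zero (f := f) (fun t ht => (h t ht).continuousAt.continuousWithinAt)
    (fun t ht => (h t (Set.Ico_subset_Icc_self ht)).hasDerivWithinAt) τ (Set.right_mem_Icc.2 hτ)

end CON

open Pool.Agent.W821.TB in
theorem t_CON : S_CON := by
  intro n m y τ hτ hy
  have hpos : ∀ t ∈ Set.Icc 0 τ, ∀ a, HasDerivAt (fun s => (y s).1 a) ((y t).2 a) t := fun t ht a =>
    CON.fst_deriv (hy t ht).1 a
  have hvel : ∀ t ∈ Set.Icc 0 τ, ∀ a, HasDerivAt (fun s => (y s).2 a) (acc m (y t).1 a) t :=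
    fun t ht a => CON.snd_deriv (hy t ht).1 a
  constructor
  · refine CON.const_of (f := fun s => energy m (y s)) hτ fun t ht => ?_
    have h1 := CON.hasDerivAt_energy (m := m) (hpos t ht) (hvel t ht) (hy t ht).2
    refine h1.congr_deriv ?_
    rw [sub_eq_zero]
    refine Finset.sum_congr rfl fun a _ => ?_
    simp only [CON.ip_eq]; ring
  · refine CON.const_of (f := fun s => angm m (y s)) hτ fun t ht => ?_
    unfold angm
    have h : ∀ a, HasDerivAt (fun s => m a * ((starRingEnd ℂ) ((y s).1 a) * (y s).2 a).im)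
        (m a * ((starRingEnd ℂ) ((y t).2 a) * (y t).2 a +
          (starRingEnd ℂ) ((y t).1 a) * acc m (y t).1 a).im) t := fun a =>
      (hasDerivAt_imc ((hasDerivAt_conj (hpos t ht a)).mul (hvel t ht a))).const_mul _
    have h2 := HasDerivAt.fun_sum (u := Finset.univ) (fun a _ => h a)
    refine h2.congr_deriv ?_
    have h3 := torque_zero (m := m) (y t).1
    rw [← h3]
    refine Finset.sum_congr rfl fun a _ => ?_
    rw [Complex.add_im]
    have : ((starRingEnd ℂ) ((y t).2 a) * (y t).2 a).im = 0 := by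
      simp only [Complex.mul_im, Complex.conj_re, Complex.conj_im]; ring
    rw [this, zero_add]

theorem t_SMO : S_SMO := by
  intro n m z hz
  constructor
  · unfold energy
    refine ContDiffAt.sub ?_ ?_
    · refine ContDiffAt.div_const (ContDiffAt.sum fun a _ => contDiffAt_const.mul ?_) 2
      have h1 : ContDiffAt ℝ 1 (fun w : Pool.Agent.W821.TB.Ph n => w.2 a) z := by fun_prop
      exact h1.norm_sq ℝ
    · refine ContDiffAt.div_const (ContDiffAt.sum fun a _ => ContDiffAt.sum fun b hb => ?_) 2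
      have hne : z.1 b - z.1 a ≠ 0 := sub_ne_zero.2 (hz b a (Finset.ne_of_mem_erase hb))
      have hd : ContDiffAt ℝ 1 (fun w : Pool.Agent.W821.TB.Ph n => w.1 b - w.1 a) z := by fun_prop
      exact contDiffAt_const.div (hd.norm ℝ hne) (norm_ne_zero_iff.2 hne)
  · unfold angm
    refine ContDiffAt.sum fun a _ => contDiffAt_const.mul ?_
    have h1 : ContDiffAt ℝ 1 (fun w : Pool.Agent.W821.TB.Ph n => w.1 a) z := by fun_prop
    have h2 : ContDiffAt ℝ 1 (fun w : Pool.Agent.W821.TB.Ph n => w.2 a) z := by fun_prop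
    have h3 : ContDiffAt ℝ 1 (fun w : Pool.Agent.W821.TB.Ph n => (starRingEnd ℂ) (w.1 a)) z :=
      Complex.conjCLE.contDiff.contDiffAt.comp z h1
    exact Complex.imCLM.contDiff.contDiffAt.comp z (h3.mul h2)

end Pool.Agent.NH62.LN
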