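import Pool.Agent.NH62.LN.Stm
import Pool.Agent.GR.Flow
import Pool.Agent.Helper981.Flow

/-!
# The flow of a Lipschitz field of class `C¹` and its variational equation
-/

set_option autoImplicit false

namespace Pool.Agent.NH62.LN

open Filter Topology Pool.Agent.GR.Flow
open scoped NNReal

namespace FLO

lemma growth {V : Type} [NormedAddCommGroup V] {F : V → V} {K : ℝ≥0} (hK : LipschitzWith K F)
    (x : V) : ‖F x‖ ≤ ((K : ℝ) + ‖F 0‖ + 1) * (1 + ‖x‖) := by
  have h1 : ‖F x - F 0‖ ≤ K * ‖x‖ := by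
    have := hK.dist_le_mul x 0
    rwa [dist_eq_norm, dist_zero_right] at this
  have h2 : ‖F x‖ ≤ ‖F x - F 0‖ + ‖F 0‖ := by
    have := norm_add_le (F x - F 0) (F 0)
    rwa [sub_add_cancel] at this
  have h3 := norm_nonneg x
  have h4 := norm_nonneg (F 0)
  have h5 : (0 : ℝ) ≤ K := K.2
  nlinarith [mul_nonneg h5 h3, mul_nonneg h4 h3]

end FLO

/-- FLO -/
theorem t_FLO : S_FLO := by
  intro V _ _ _ F K hF hK
  have hcomp : CompleteSpace V := FiniteDimensional.complete ℝ V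
  have hA := FLO.growth hK
  obtain ⟨g, h0, h1, -, h3⟩ :=
    Pool.Agent.Helper981.exists_flow hF (A := (K : ℝ) + ‖F 0‖ + 1) (by positivity) hA
  let X : C(V, V) := ⟨F, hF.continuous⟩
  have hXc : ContDiff ℝ 1 X := hF
  have hXc' : ContDiff ℝ ((1 : ℕ) : WithTop ℕ∞) X := by simpa using hXc
  have hXK : LipschitzWith K X := hK
  have hg : IsFlowOf X g := ⟨h0, h1⟩
  have hC : ContDiff ℝ ((1 : ℕ) : WithTop ℕ∞) (fun p : ℝ × V => g p.1 p.2) :=
    contDiff_flow one_ne_zero hXc' hXK hg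
  have hCt : ∀ t, Differentiable ℝ (g t) := by
    intro t
    have h5 : ContDiff ℝ ((1 : ℕ) : WithTop ℕ∞) (g t) :=
      hC.comp (contDiff_const.prodMk contDiff_id)
    exact h5.differentiable (by simp)
  refine ⟨g, h0, h1, by simpa using hC, h3, ?_⟩
  intro z ξ t
  have e1 : (fun s => fderiv ℝ (g s) z ξ) =
      fun s => fderiv ℝ (g (s - t)) (g t z) (fderiv ℝ (g t) z ξ) := by
    ext1 s
    have h2 : g s = g (s - t) ∘ g t := by
      ext1 y
      rw [Function.comp_apply, ← hg.add hXK, sub_add_cancel]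
    conv_lhs => rw [h2]
    rw [fderiv_comp z (hCt _ _) (hCt _ _)]
    rfl
  rw [e1]
  have h4 : HasDerivAt (fun s => fderiv ℝ (g s) (g t z) (fderiv ℝ (g t) z ξ))
      (fderiv ℝ F (g t z) (fderiv ℝ (g t) z ξ)) (t - t) := by
    rw [sub_self]
    exact hasDerivAt_fderiv_flow hXc hXK hg (g t z) (fderiv ℝ (g t) z ξ)
  exact h4.comp_sub_const t t

end Pool.Agent.NH62.LN
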