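import Pool.Agent.NH62.LN.Stm
import Pool.Agent.W821.TB.Fam

/-!
# LN-IND: energy and angular momentum are independent off the relative equilibria
-/

set_option autoImplicit false

namespace Pool.Agent.NH62.LN

open Pool.Agent.W821.TB Filter Topology ComplexConjugate

namespace IND

variable {n : ℕ} {m : Fin n → ℝ}

theorem line (z ξ : Ph n) : HasDerivAt (fun s : ℝ => z + s • ξ) ξ 0 := by
  have h := ((hasDerivAt_id (0 : ℝ)).smul_const ξ).const_add z
  simpa using h

theorem line1 (z ξ : Ph n) (a : Fin n) :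
    HasDerivAt (fun s : ℝ => (z + s • ξ).1 a) (ξ.1 a) 0 := fst_deriv (line z ξ) a

theorem line2 (z ξ : Ph n) (a : Fin n) :
    HasDerivAt (fun s : ℝ => (z + s • ξ).2 a) (ξ.2 a) 0 := snd_deriv (line z ξ) a

theorem dir {f : Ph n → ℝ} {z : Ph n} (hf : DifferentiableAt ℝ f z) (ξ : Ph n) {d : ℝ}
    (h : HasDerivAt (fun s : ℝ => f (z + s • ξ)) d 0) : fderiv ℝ f z ξ = d := by
  have h0 : HasFDerivAt f (fderiv ℝ f z) (z + (0 : ℝ) • ξ) := by
    simpa using hf.hasFDerivAt
  have h1 := h0.comp_hasDerivAt (0 : ℝ) (line z ξ)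
  exact h1.unique h

theorem fd_energy (hS : S_SMO) {z : Ph n} (hz : ∀ a b, a ≠ b → z.1 a ≠ z.1 b) (ξ : Ph n) :
    fderiv ℝ (energy m) z ξ =
      ∑ a, m a * ip (z.2 a) (ξ.2 a) - ∑ a, m a * ip (acc m z.1 a) (ξ.1 a) := by
  refine dir ((hS n m z hz).1.differentiableAt (by norm_num)) ξ ?_
  have h := hasDerivAt_energy (m := m) (z := fun s : ℝ => z + s • ξ) (t := 0) (line1 z ξ)
    (line2 z ξ) (by simpa using hz)
  have e : z + (0 : ℝ) • ξ = z := by simp
  simp only [e] at h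
  exact h

theorem fd_angm (hS : S_SMO) {z : Ph n} (hz : ∀ a b, a ≠ b → z.1 a ≠ z.1 b) (ξ : Ph n) :
    fderiv ℝ (angm m) z ξ =
      ∑ a, m a * ip (Complex.I * z.1 a) (ξ.2 a) - ∑ a, m a * ip (Complex.I * z.2 a) (ξ.1 a) := by
  refine dir ((hS n m z hz).2.differentiableAt (by norm_num)) ξ ?_
  unfold angm
  have h : ∀ a, HasDerivAt (fun s : ℝ => m a * (conj ((z + s • ξ).1 a) * (z + s • ξ).2 a).im)
      (m a * (conj (ξ.1 a) * (z + (0 : ℝ) • ξ).2 a + conj ((z + (0 : ℝ) • ξ).1 a) * ξ.2 a).im) 0 :=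
    fun a => (hasDerivAt_imc ((hasDerivAt_conj (line1 z ξ a)).mul (line2 z ξ a))).const_mul _
  have h2 := HasDerivAt.fun_sum (u := Finset.univ) (fun a _ => h a)
  refine h2.congr_deriv ?_
  rw [← Finset.sum_sub_distrib]
  refine Finset.sum_congr rfl fun a _ => ?_
  have e : z + (0 : ℝ) • ξ = z := by simp
  rw [e, ip_eq, ip_eq]
  simp only [Complex.mul_im, Complex.mul_re, Complex.add_im, Complex.conj_re, Complex.conj_im,
    Complex.I_re, Complex.I_im]
  ring

theorem sum_acc {x : ℝ → Ph n} (hx : IsSol m Set.univ x) :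
    ∑ a, (m a : ℂ) * acc m (x 0).1 a = 0 := by
  have h : HasDerivAt (fun s : ℝ => ∑ a, (m a : ℂ) * (x s).2 a)
      (∑ a, (m a : ℂ) * acc m (x 0).1 a) 0 :=
    HasDerivAt.fun_sum (u := Finset.univ) fun a _ => (hasDerivAt_vel hx 0 a).const_mul _
  have e : (fun s : ℝ => ∑ a, (m a : ℂ) * (x s).2 a) = fun _ => 0 := by
    funext s
    exact (hx.mem s).2.2
  rw [e] at h
  exact h.unique (hasDerivAt_const 0 0)

/-- the rotating solution -/
theorem rot {x : ℝ → Ph n} (hx : IsSol m Set.univ x) (l : ℝ)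
    (h1 : ∀ a, (x 0).2 a = (l : ℂ) * Complex.I * (x 0).1 a)
    (h2 : ∀ a, acc m (x 0).1 a = (l : ℂ) * Complex.I * (x 0).2 a) : IsRelEq x := by
  have hn : ∀ t : ℝ, ‖Complex.exp ((l * t : ℝ) * Complex.I)‖ = 1 := fun t =>
    Complex.norm_exp_ofReal_mul_I _
  have hd : ∀ t : ℝ, HasDerivAt (fun s : ℝ => Complex.exp ((l * s : ℝ) * Complex.I))
      (Complex.exp ((l * t : ℝ) * Complex.I) * ((l : ℂ) * Complex.I)) t := by
    intro t
    have h3 : HasDerivAt (fun s : ℝ => ((l * s : ℝ) : ℂ) * Complex.I) ((l : ℂ) * Complex.I) t := by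
      have h4 : HasDerivAt (fun s : ℝ => (((l * s : ℝ)) : ℂ)) (l : ℂ) t := by
        have := (((hasDerivAt_id t).const_mul l)).ofReal_comp
        simpa using this
      exact h4.mul_const _
    exact h3.cexp
  have hy : IsSol m Set.univ
      (fun t : ℝ => Complex.exp ((l * t : ℝ) * Complex.I) • x 0) := by
    refine isSol_of_comp (fun t => smul_mem (hn t) (hx.mem 0)) (fun t a => ?_) (fun t a => ?_)
    · have h5 := (hd t).mul_const ((x 0).1 a)
      refine h5.congr_deriv ?_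
      show _ = Complex.exp ((l * t : ℝ) * Complex.I) * (x 0).2 a
      rw [h1 a]
      ring
    · have h5 := (hd t).mul_const ((x 0).2 a)
      refine h5.congr_deriv ?_
      have h6 := acc_smul (m := m) (Complex.exp ((l * t : ℝ) * Complex.I)) (hn t) (x 0).1 a
      show _ = acc m (Complex.exp ((l * t : ℝ) * Complex.I) • (x 0).1) a
      rw [h6, h2 a]
      ring
  have hxy := sol_unique hx hy (t₀ := 0) (by simp)
  intro t a b
  have h7 : x t = Complex.exp ((l * t : ℝ) * Complex.I) • x 0 := congrFun hxy t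
  have h8 : (x t).1 a - (x t).1 b =
      Complex.exp ((l * t : ℝ) * Complex.I) * ((x 0).1 a - (x 0).1 b) := by
    rw [h7]
    show Complex.exp ((l * t : ℝ) * Complex.I) * (x 0).1 a -
      Complex.exp ((l * t : ℝ) * Complex.I) * (x 0).1 b = _
    ring
  rw [h8, norm_mul, hn t, one_mul]

end IND

open IND in
theorem t_IND (hS : S_SMO) : S_IND := by
  intro n m x hn hm hx hR α β h
  have hz := (hx.mem 0).1
  set η1 : Fin n → ℂ := fun a => (α : ℂ) * (x 0).2 a + (β : ℂ) * (Complex.I * (x 0).1 a) with hη1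
  set η2 : Fin n → ℂ := fun a => (α : ℂ) * acc m (x 0).1 a + (β : ℂ) * (Complex.I * (x 0).2 a)
    with hη2
  have hs1 : ∑ a, (m a : ℂ) * η1 a = 0 := by
    have e : ∑ a, (m a : ℂ) * η1 a = (α : ℂ) * ∑ a, (m a : ℂ) * (x 0).2 a +
        (β : ℂ) * Complex.I * ∑ a, (m a : ℂ) * (x 0).1 a := by
      rw [Finset.mul_sum, Finset.mul_sum, ← Finset.sum_add_distrib]
      refine Finset.sum_congr rfl fun a _ => ?_
      simp only [hη1]
      ring
    rw [e, (hx.mem 0).2.1, (hx.mem 0).2.2, mul_zero, mul_zero, add_zero]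
  have hs2 : ∑ a, (m a : ℂ) * η2 a = 0 := by
    have e : ∑ a, (m a : ℂ) * η2 a = (α : ℂ) * ∑ a, (m a : ℂ) * acc m (x 0).1 a +
        (β : ℂ) * Complex.I * ∑ a, (m a : ℂ) * (x 0).2 a := by
      rw [Finset.mul_sum, Finset.mul_sum, ← Finset.sum_add_distrib]
      refine Finset.sum_congr rfl fun a _ => ?_
      simp only [hη2]
      ring
    rw [e, sum_acc hx, (hx.mem 0).2.2, mul_zero, mul_zero, add_zero]
  have hc : ((fun a => -η2 a, η1) : Ph n) ∈ com m := by
    refine ⟨?_, hs1⟩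
    show ∑ a, (m a : ℂ) * (-η2 a) = 0
    have e : ∑ a, (m a : ℂ) * (-η2 a) = -∑ a, (m a : ℂ) * η2 a := by
      rw [← Finset.sum_neg_distrib]
      exact Finset.sum_congr rfl fun a _ => by ring
    rw [e, hs2, neg_zero]
  have h1 := h _ hc
  rw [fd_energy hS hz, fd_angm hS hz] at h1
  have h2 : ∑ a, m a * (‖η1 a‖ ^ 2 + ‖η2 a‖ ^ 2) = 0 := by
    rw [← h1, ← Finset.sum_sub_distrib, ← Finset.sum_sub_distrib, Finset.mul_sum, Finset.mul_sum,
      ← Finset.sum_add_distrib]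
    refine Finset.sum_congr rfl fun a _ => ?_
    rw [← ip_self, ← ip_self]
    simp only [ip_eq, hη1, hη2, Complex.add_re, Complex.add_im, Complex.mul_re, Complex.mul_im,
      Complex.ofReal_re, Complex.ofReal_im, Complex.I_re, Complex.I_im, Complex.neg_re,
      Complex.neg_im]
    ring
  have h3 : ∀ a, η1 a = 0 ∧ η2 a = 0 := by
    intro a
    have h4 := (Finset.sum_eq_zero_iff_of_nonneg (fun a _ => mul_nonneg (hm a).le
      (add_nonneg (sq_nonneg ‖η1 a‖) (sq_nonneg ‖η2 a‖)))).1 h2 a (Finset.mem_univ a)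
    have h5 := (mul_eq_zero.1 h4).resolve_left (hm a).ne'
    have h6 : ‖η1 a‖ ^ 2 = 0 := by nlinarith [sq_nonneg ‖η1 a‖, sq_nonneg ‖η2 a‖]
    have h7 : ‖η2 a‖ ^ 2 = 0 := by nlinarith [sq_nonneg ‖η1 a‖, sq_nonneg ‖η2 a‖]
    exact ⟨norm_eq_zero.1 (pow_eq_zero_iff (two_ne_zero)|>.1 h6),
      norm_eq_zero.1 (pow_eq_zero_iff (two_ne_zero)|>.1 h7)⟩
  by_cases hα : α = 0
  · refine ⟨hα, ?_⟩
    by_contra hβ
    have h8 : ∀ a, (x 0).1 a = 0 := by
      intro a
      have h9 := (h3 a).1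
      simp only [hη1, hα, Complex.ofReal_zero, zero_mul, zero_add] at h9
      have hβ' : (β : ℂ) ≠ 0 := by exact_mod_cast hβ
      exact (mul_eq_zero.1 ((mul_eq_zero.1 h9).resolve_left hβ')).resolve_left Complex.I_ne_zero
    have h10 := hz ⟨0, by omega⟩ ⟨1, by omega⟩ (by simp)
    exact h10 (by rw [h8, h8])
  · exfalso
    apply hR
    have hα' : (α : ℂ) ≠ 0 := by exact_mod_cast hα
    refine rot hx (-β / α) (fun a => ?_) (fun a => ?_)
    · have h9 := (h3 a).1
      simp only [hη1] at h9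
      have h11 : (x 0).2 a = -((β : ℂ) * (Complex.I * (x 0).1 a)) / α := by
        rw [eq_div_iff hα']
        linear_combination h9
      rw [h11]
      push_cast
      ring
    · have h9 := (h3 a).2
      simp only [hη2] at h9
      have h11 : acc m (x 0).1 a = -((β : ℂ) * (Complex.I * (x 0).2 a)) / α := by
        rw [eq_div_iff hα']
        linear_combination h9
      rw [h11]
      push_cast
      ring

end Pool.Agent.NH62.LN
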