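import Pool.Agent.NH62.LN.Stm

/-!
# LN-INV: invariance of the flow (helper2)
-/

set_option autoImplicit false

namespace Pool.Agent.NH62.LN

open Filter Topology
open scoped NNReal

namespace INV

variable {V : Type} [NormedAddCommGroup V] [NormedSpace ℝ V]

theorem exists_proj [FiniteDimensional ℝ V] (W : Submodule ℝ V) :
    ∃ Q : V →L[ℝ] V, (∀ z, Q z ∈ W) ∧ ∀ z ∈ W, Q z = z := by
  obtain ⟨f, hf⟩ := LinearMap.exists_leftInverse_of_injective W.subtype W.ker_subtype
  refine ⟨LinearMap.toContinuousLinearMap (W.subtype ∘ₗ f), fun z => ?_, fun z hz => ?_⟩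
  · change (f z : V) ∈ W
    exact (f z).2
  · change (f z : V) = z
    have h1 : f z = ⟨z, hz⟩ := LinearMap.congr_fun hf ⟨z, hz⟩
    rw [h1]

theorem flow_mem [FiniteDimensional ℝ V] {F : V → V} {K : ℝ≥0} {g : ℝ → V → V}
    (hK : LipschitzWith K F) (h0 : ∀ z, g 0 z = z)
    (hg : ∀ z t, HasDerivAt (fun s => g s z) (F (g t z)) t) (W : Submodule ℝ V)
    (hW : ∀ z ∈ W, F z ∈ W) (t : ℝ) (z : V) (hz : z ∈ W) : g t z ∈ W := by
  obtain ⟨Q, hQ1, hQ2⟩ := exists_proj W
  let P : V →L[ℝ] V := ContinuousLinearMap.id ℝ V - Q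
  have hP : ∀ x, P x = x - Q x := fun x => rfl
  have hPW : ∀ x ∈ W, P x = 0 := fun x hx => by rw [hP, hQ2 x hx, sub_self]
  have key : (fun s => P (g s z)) = fun _ => (0 : V) := by
    refine ODE_solution_unique_univ (v := fun s u => P (F (Q (g s z) + u)))
      (s := fun _ => Set.univ) (K := ‖P‖₊ * K) (t₀ := 0) (fun s => ?_)
      (fun s => ⟨?_, trivial⟩) (fun s => ⟨?_, trivial⟩) ?_
    · have h1 : LipschitzWith 1 (fun u : V => Q (g s z) + u) := by
        refine LipschitzWith.of_dist_le_mul fun a b => ?_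
        rw [dist_add_left]
        simp
      have h2 : LipschitzWith (‖P‖₊ * (K * 1)) (fun u : V => P (F (Q (g s z) + u))) :=
        P.lipschitz.comp (hK.comp h1)
      rw [mul_one] at h2
      exact h2.lipschitzOnWith
    · have h1 : Q (g s z) + P (g s z) = g s z := by rw [hP]; abel
      change HasDerivAt (fun s => P (g s z)) (P (F (Q (g s z) + P (g s z)))) s
      rw [h1]
      exact P.hasFDerivAt.comp_hasDerivAt s (hg z s)
    · change HasDerivAt (fun _ => (0 : V)) (P (F (Q (g s z) + 0))) s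
      rw [add_zero, hPW _ (hW _ (hQ1 _))]
      exact hasDerivAt_const s 0
    · rw [h0, hPW z hz]
  have h1 : P (g t z) = 0 := congrFun key t
  rw [hP, sub_eq_zero] at h1
  rw [h1]
  exact hQ1 _

theorem flow_comm {F : V → V} {K : ℝ≥0} {g : ℝ → V → V}
    (hK : LipschitzWith K F) (h0 : ∀ z, g 0 z = z)
    (hg : ∀ z t, HasDerivAt (fun s => g s z) (F (g t z)) t) (L : V →L[ℝ] V)
    (hL : ∀ z, F (L z) = L (F z)) (t : ℝ) (z : V) : g t (L z) = L (g t z) := by
  have key : (fun s => g s (L z)) = fun s => L (g s z) := by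
    refine ODE_solution_unique_univ (v := fun _ => F) (s := fun _ => Set.univ) (K := K) (t₀ := 0)
      (fun s => hK.lipschitzOnWith) (fun s => ⟨hg (L z) s, trivial⟩)
      (fun s => ⟨?_, trivial⟩) ?_
    · rw [hL]
      exact L.hasFDerivAt.comp_hasDerivAt s (hg z s)
    · rw [h0, h0]
  exact congrFun key t

end INV

theorem t_INV : S_INV := by
  intro V _ _ _ F K g _ hK h0 hg
  exact ⟨fun W hW t z hz => INV.flow_mem hK h0 hg W hW t z hz,
    fun L hL t z => INV.flow_comm hK h0 hg L hL t z⟩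

end Pool.Agent.NH62.LN
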