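import Pool.Agent.NH62.LN.Stm

/-!
# The implicit function argument
-/

set_option autoImplicit false

namespace Pool.Agent.NH62.LN

open Filter Topology Module

namespace LIN

theorem core {U Y : Type} [NormedAddCommGroup U] [NormedSpace ℝ U] [FiniteDimensional ℝ U]
    [NormedAddCommGroup Y] [NormedSpace ℝ Y] [FiniteDimensional ℝ Y]
    (G : ℝ × U → U) (θ₀ : ℝ) (x₀ : U) (H : U → Y)
    (hG : ContDiffAt ℝ 1 G (θ₀, x₀)) (hG0 : G (θ₀, x₀) = 0) (hH : ContDiffAt ℝ 1 H x₀)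
    (hGH : ∀ᶠ p in 𝓝 (θ₀, x₀), H (p.2 + G p) = H p.2)
    (hs : LinearMap.range (fderiv ℝ H x₀ : U →ₗ[ℝ] Y) = ⊤)
    (hk : finrank ℝ (LinearMap.ker (fderiv ℝ (fun z => G (θ₀, z)) x₀ : U →ₗ[ℝ] U)) ≤ finrank ℝ Y) :
    ∀ N ∈ 𝓝 x₀, ∀ᶠ θ in 𝓝 θ₀, ∃ z ∈ N, G (θ, z) = 0 := by
  classical
  have hcU : CompleteSpace U := FiniteDimensional.complete ℝ U
  set D := fderiv ℝ G (θ₀, x₀) with hD
  set L := fderiv ℝ (fun z => G (θ₀, z)) x₀ with hL
  set H' := fderiv ℝ H x₀ with hH'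
  have hGs : HasStrictFDerivAt G D (θ₀, x₀) := hG.hasStrictFDerivAt (by norm_num)
  have hHs : HasStrictFDerivAt H H' x₀ := hH.hasStrictFDerivAt (by norm_num)
  have h1 : HasFDerivAt (fun z => G (θ₀, z)) (D.comp (ContinuousLinearMap.inr ℝ ℝ U)) x₀ :=
    HasFDerivAt.comp x₀ hGs.hasFDerivAt (hasFDerivAt_prodMk_right θ₀ x₀)
  have hLe : L = D.comp (ContinuousLinearMap.inr ℝ ℝ U) := h1.fderiv
  have hLD : ∀ ξ, L ξ = D (0, ξ) := fun ξ => by rw [hLe]; rfl
  have hLf : HasFDerivAt (fun z => G (θ₀, z)) L x₀ := by rw [hLe]; exact h1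
  -- the range of `L` is in the kernel of `H'`
  have hHL : ∀ ξ, H' (L ξ) = 0 := by
    have h2 : HasFDerivAt (fun z => z + G (θ₀, z)) (ContinuousLinearMap.id ℝ U + L) x₀ :=
      (hasFDerivAt_id x₀).add hLf
    have h3 : HasFDerivAt H H' ((fun z => z + G (θ₀, z)) x₀) := by
      show HasFDerivAt H H' (x₀ + G (θ₀, x₀))
      rw [hG0, add_zero]
      exact hHs.hasFDerivAt
    have h4 := HasFDerivAt.comp x₀ h3 h2
    have h5 : ∀ᶠ z in 𝓝 x₀, (H ∘ fun z => z + G (θ₀, z)) z = H z := by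
      have hc : Tendsto (fun z : U => (θ₀, z)) (𝓝 x₀) (𝓝 (θ₀, x₀)) :=
        (Continuous.prodMk_right θ₀).continuousAt
      exact hc.eventually hGH
    have h6 : HasFDerivAt H (H'.comp (ContinuousLinearMap.id ℝ U + L)) x₀ :=
      h4.congr_of_eventuallyEq (h5.mono fun z hz => hz.symm)
    have h7 := h6.unique hHs.hasFDerivAt
    intro ξ
    have h8 := congrArg (fun T : U →L[ℝ] Y => T ξ) h7
    simp only [ContinuousLinearMap.comp_apply, ContinuousLinearMap.add_apply,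
      ContinuousLinearMap.id_apply, map_add] at h8
    exact add_eq_left.1 h8
  set Z : Submodule ℝ U := LinearMap.ker (H' : U →ₗ[ℝ] Y) with hZ
  have hrange : LinearMap.range (L : U →ₗ[ℝ] U) = Z := by
    apply Submodule.eq_of_le_of_finrank_le
    · rintro _ ⟨ξ, rfl⟩
      exact hHL ξ
    · have e1 := LinearMap.finrank_range_add_finrank_ker (L : U →ₗ[ℝ] U)
      have e2 : finrank ℝ (LinearMap.range (H' : U →ₗ[ℝ] Y)) + finrank ℝ Z = finrank ℝ U :=
        LinearMap.finrank_range_add_finrank_ker (H' : U →ₗ[ℝ] Y)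
      rw [hs, finrank_top] at e2
      omega
  -- the projection
  obtain ⟨g, hg⟩ := LinearMap.exists_leftInverse_of_injective Z.subtype (Submodule.ker_subtype Z)
  set P : U →L[ℝ] Z := LinearMap.toContinuousLinearMap g with hP
  have hPZ : ∀ z : Z, P (z : U) = z := fun z => by
    have := congrArg (fun T : Z →ₗ[ℝ] Z => T z) hg
    exact this
  have hcZ : CompleteSpace (ℝ × Z) := FiniteDimensional.complete ℝ _
  have hΨ : HasStrictFDerivAt (fun p : ℝ × U => (p.1, P (G p)))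
      ((ContinuousLinearMap.fst ℝ ℝ U).prod (P.comp D)) (θ₀, x₀) :=
    hasStrictFDerivAt_fst.prodMk (P.hasStrictFDerivAt.comp _ hGs)
  have hsurj : ((ContinuousLinearMap.fst ℝ ℝ U).prod (P.comp D)).range = ⊤ := by
    refine LinearMap.range_eq_top.2 ?_
    rintro ⟨s, ζ⟩
    have hmem : ((ζ - P (D (s, 0)) : Z) : U) ∈ LinearMap.range (L : U →ₗ[ℝ] U) := by
      rw [hrange]
      exact (ζ - P (D (s, 0))).2
    obtain ⟨ξ, hξ⟩ := hmem
    refine ⟨(s, ξ), ?_⟩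
    have e1 : D (s, ξ) = D (s, 0) + L ξ := by
      rw [hLD, ← map_add]
      simp
    have e2 : P (D (s, ξ)) = ζ := by
      have e3 : L ξ = ((ζ - P (D (s, 0)) : Z) : U) := hξ
      rw [e1, map_add, e3, hPZ]
      abel
    exact Prod.ext rfl e2
  have hmap : map (fun p : ℝ × U => (p.1, P (G p))) (𝓝 (θ₀, x₀)) = 𝓝 (θ₀, 0) := by
    have hm := hΨ.map_nhds_eq_of_surj hsurj
    rw [hG0, map_zero] at hm
    exact hm
  -- the lower bound
  have hT : LinearMap.ker ((H' : U →ₗ[ℝ] Y).prod (P : U →ₗ[ℝ] Z)) = ⊥ := by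
    rw [LinearMap.ker_eq_bot']
    intro v hv
    have e1 : H' v = 0 := congrArg Prod.fst hv
    have e2 : P v = 0 := congrArg Prod.snd hv
    have e3 := hPZ ⟨v, e1⟩
    have e4 : P v = ⟨v, e1⟩ := e3
    rw [e2] at e4
    exact (congrArg Subtype.val e4).symm
  obtain ⟨K, hK0, hK⟩ := LinearMap.exists_antilipschitzWith _ hT
  have hlow : ∀ v, P v = 0 → ‖v‖ ≤ K * ‖H' v‖ := by
    intro v hv
    have e1 := hK.le_mul_dist v 0
    rw [map_zero, dist_zero_right, dist_zero_right] at e1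
    have e2 : ((H' : U →ₗ[ℝ] Y).prod (P : U →ₗ[ℝ] Z)) v = (H' v, 0) := Prod.ext rfl hv
    rw [e2, Prod.norm_mk, norm_zero, max_eq_left (norm_nonneg _)] at e1
    exact e1
  have hKp : (0 : ℝ) < K := hK0
  have hcpos : (0 : ℝ) < 1 / (2 * K) := by positivity
  -- the good points
  have hten : Tendsto (fun p : ℝ × U => (p.2 + G p, p.2)) (𝓝 (θ₀, x₀)) (𝓝 (x₀, x₀)) := by
    have e1 : Tendsto G (𝓝 (θ₀, x₀)) (𝓝 0) := by
      have := hGs.hasFDerivAt.continuousAt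
      rwa [ContinuousAt, hG0] at this
    have e2 : Tendsto (fun p : ℝ × U => p.2) (𝓝 (θ₀, x₀)) (𝓝 x₀) := continuous_snd.continuousAt
    have e3 := e2.add e1
    rw [add_zero] at e3
    exact e3.prodMk_nhds e2
  have hlit := (hasStrictFDerivAt_iff_isLittleO.1 hHs).def hcpos
  have hgood1 := hten.eventually hlit
  intro N hN
  have hN2 : ∀ᶠ p : ℝ × U in 𝓝 (θ₀, x₀), p.2 ∈ N :=
    (continuous_snd.continuousAt : ContinuousAt (fun p : ℝ × U => p.2) (θ₀, x₀)).eventually hN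
  have hM := (hN2.and (hGH.and hgood1))
  have himg := image_mem_map (m := fun p : ℝ × U => (p.1, P (G p))) hM
  rw [hmap] at himg
  have hc0 : Tendsto (fun θ : ℝ => (θ, (0 : Z))) (𝓝 θ₀) (𝓝 (θ₀, 0)) :=
    (Continuous.prodMk_left (0 : Z)).continuousAt
  filter_upwards [hc0.eventually himg] with θ hθ
  obtain ⟨⟨θ', z⟩, ⟨hz1, hz2, hz3⟩, hz4⟩ := hθ
  have e1 : θ' = θ := congrArg Prod.fst hz4
  have e2 : P (G (θ', z)) = 0 := congrArg Prod.snd hz4
  subst e1
  refine ⟨z, hz1, ?_⟩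
  have e3 := hlow _ e2
  simp only at hz2 hz3
  rw [hz2, sub_self, zero_sub, norm_neg, add_sub_cancel_left] at hz3
  have e4 : ‖G (θ', z)‖ ≤ 1 / 2 * ‖G (θ', z)‖ := by
    calc ‖G (θ', z)‖ ≤ K * ‖H' (G (θ', z))‖ := e3
      _ ≤ K * (1 / (2 * K) * ‖G (θ', z)‖) := by gcongr
      _ = 1 / 2 * ‖G (θ', z)‖ := by field_simp
  have e5 := norm_nonneg (G (θ', z))
  exact norm_eq_zero.1 (by linarith)

end LIN

open LIN in
theorem t_LIN : S_LIN := by
  classical
  intro V _ _ _ W G θ₀ x₀ e₁ e₂ E J hx₀ hG hG0 hGW hE hJ hEJ hind hker N hN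
  -- the projection to `W`
  obtain ⟨g, hg⟩ := LinearMap.exists_leftInverse_of_injective W.subtype (Submodule.ker_subtype W)
  obtain ⟨π, hπ⟩ : ∃ π : V →L[ℝ] W, ∀ w : W, π (w : V) = w :=
    ⟨LinearMap.toContinuousLinearMap g, fun w => congrArg (fun T : W →ₗ[ℝ] W => T w) hg⟩
  set x₁ : W := ⟨x₀, hx₀⟩ with hx₁
  have hιc : ContDiff ℝ 1 (fun w : W => (w : V)) := W.subtypeL.contDiff
  have hι : ∀ w : W, HasFDerivAt (fun w : W => (w : V)) W.subtypeL w := fun w =>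
    W.subtypeL.hasFDerivAt
  have hjc : ContDiff ℝ 1 (fun p : ℝ × W => ((p.1, (p.2 : V)) : ℝ × V)) :=
    contDiff_fst.prodMk (hιc.comp contDiff_snd)
  have hjt : Tendsto (fun p : ℝ × W => ((p.1, (p.2 : V)) : ℝ × V)) (𝓝 (θ₀, x₁)) (𝓝 (θ₀, x₀)) :=
    hjc.continuous.continuousAt
  -- the data on `W`
  have hG' : ContDiffAt ℝ 1 (fun p : ℝ × W => π (G (p.1, (p.2 : V)))) (θ₀, x₁) := by
    have h1 : ContDiffAt ℝ 1 (fun p : ℝ × W => G (p.1, (p.2 : V))) (θ₀, x₁) :=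
      ContDiffAt.comp (θ₀, x₁) hG hjc.contDiffAt
    exact π.contDiff.contDiffAt.comp _ h1
  have hH : ContDiffAt ℝ 1 (fun w : W => (E (w : V), J (w : V))) x₁ := by
    have h1 : ContDiffAt ℝ 1 (fun w : W => E (w : V)) x₁ :=
      ContDiffAt.comp x₁ hE hιc.contDiffAt
    have h2 : ContDiffAt ℝ 1 (fun w : W => J (w : V)) x₁ :=
      ContDiffAt.comp x₁ hJ hιc.contDiffAt
    exact h1.prodMk h2
  have hHf : ∀ ξ : W, fderiv ℝ (fun w : W => (E (w : V), J (w : V))) x₁ ξ =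
      (fderiv ℝ E x₀ ξ, fderiv ℝ J x₀ ξ) := by
    intro ξ
    have h1 : HasFDerivAt (fun w : W => E (w : V)) ((fderiv ℝ E x₀).comp W.subtypeL) x₁ :=
      HasFDerivAt.comp x₁ (hE.differentiableAt (by norm_num)).hasFDerivAt (hι x₁)
    have h2 : HasFDerivAt (fun w : W => J (w : V)) ((fderiv ℝ J x₀).comp W.subtypeL) x₁ :=
      HasFDerivAt.comp x₁ (hJ.differentiableAt (by norm_num)).hasFDerivAt (hι x₁)
    rw [(h1.prodMk h2).fderiv]
    rfl
  have hW' : ∀ᶠ p : ℝ × W in 𝓝 (θ₀, x₁), G (p.1, (p.2 : V)) ∈ W :=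
    (hjt.eventually hGW).mono fun p hp => hp p.2.2
  have hcore := core (fun p : ℝ × W => π (G (p.1, (p.2 : V)))) θ₀ x₁
    (fun w : W => (E (w : V), J (w : V))) hG' (by show π (G (θ₀, x₀)) = 0; rw [hG0, map_zero]) hH
    (by
      filter_upwards [hjt.eventually hEJ, hW'] with p hp hpW
      obtain ⟨h1, h2⟩ := hp p.2.2
      have h3 : ((π (G (p.1, (p.2 : V))) : W) : V) = G (p.1, (p.2 : V)) :=
        congrArg Subtype.val (hπ ⟨_, hpW⟩)
      show (E ((p.2 + π (G (p.1, (p.2 : V))) : W) : V), J ((p.2 + π (G (p.1, (p.2 : V))) : W) : V)) =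
        (E (p.2 : V), J (p.2 : V))
      rw [Submodule.coe_add, h3]
      exact Prod.ext h1 h2)
    (by
      by_contra hne
      obtain ⟨f, hf0, hf⟩ := Submodule.exists_le_ker_of_lt_top _ (lt_top_iff_ne_top.2 hne)
      have hfab : ∀ a b : ℝ, f (a, b) = f (1, 0) * a + f (0, 1) * b := by
        intro a b
        have : ((a, b) : ℝ × ℝ) = a • (1, 0) + b • (0, 1) := by
          ext <;> simp
        rw [this, map_add, map_smul, map_smul, smul_eq_mul, smul_eq_mul]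
        ring
      obtain ⟨h1, h2⟩ := hind (f (1, 0)) (f (0, 1)) (fun ξ hξ => by
        have h3 : fderiv ℝ (fun w : W => (E (w : V), J (w : V))) x₁ ⟨ξ, hξ⟩ ∈ LinearMap.ker f :=
          hf ⟨⟨ξ, hξ⟩, rfl⟩
        rw [hHf, LinearMap.mem_ker, hfab] at h3
        exact h3)
      apply hf0
      refine LinearMap.ext fun p => ?_
      obtain ⟨a, b⟩ := p
      rw [hfab, h1, h2]
      simp)
    (by
      have hGf : HasFDerivAt (fun z => G (θ₀, z)) (fderiv ℝ (fun z => G (θ₀, z)) x₀) x₀ := by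
        have h1 : DifferentiableAt ℝ (fun z => G (θ₀, z)) x₀ :=
          DifferentiableAt.comp x₀ (hG.differentiableAt (by norm_num))
            (hasFDerivAt_prodMk_right θ₀ x₀).differentiableAt
        exact h1.hasFDerivAt
      have hA : HasFDerivAt (fun w : W => G (θ₀, (w : V)))
          ((fderiv ℝ (fun z => G (θ₀, z)) x₀).comp W.subtypeL) x₁ :=
        HasFDerivAt.comp (g := fun z => G (θ₀, z)) x₁ hGf (hι x₁)
      have hB : HasFDerivAt (fun w : W => π (G (θ₀, (w : V))))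
          (π.comp ((fderiv ℝ (fun z => G (θ₀, z)) x₀).comp W.subtypeL)) x₁ :=
        HasFDerivAt.comp x₁ π.hasFDerivAt hA
      have hC : HasFDerivAt (fun w : W => ((π (G (θ₀, (w : V))) : W) : V))
          (W.subtypeL.comp (π.comp ((fderiv ℝ (fun z => G (θ₀, z)) x₀).comp W.subtypeL))) x₁ :=
        HasFDerivAt.comp x₁ W.subtypeL.hasFDerivAt hB
      have hD : ∀ᶠ w : W in 𝓝 x₁, G (θ₀, (w : V)) = ((π (G (θ₀, (w : V))) : W) : V) := by
        have hc : Tendsto (fun w : W => (θ₀, w)) (𝓝 x₁) (𝓝 (θ₀, x₁)) :=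
          (Continuous.prodMk_right θ₀).continuousAt
        filter_upwards [hc.eventually hW'] with w hw
        exact (congrArg Subtype.val (hπ ⟨_, hw⟩)).symm
      have hU := (hC.congr_of_eventuallyEq hD).unique hA
      have hfd : fderiv ℝ (fun w : W => π (G (θ₀, (w : V)))) x₁ =
        π.comp ((fderiv ℝ (fun z => G (θ₀, z)) x₀).comp W.subtypeL) := hB.fderiv
      let Λ : ℝ × ℝ →ₗ[ℝ] V :=
        (LinearMap.toSpanSingleton ℝ V e₁).coprod (LinearMap.toSpanSingleton ℝ V e₂)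
      have hle : (LinearMap.ker (fderiv ℝ (fun w : W => π (G (θ₀, (w : V)))) x₁ :
          W →ₗ[ℝ] W)).map W.subtype ≤ LinearMap.range Λ := by
        rintro _ ⟨ξ, hξ, rfl⟩
        have h1 : π (fderiv ℝ (fun z => G (θ₀, z)) x₀ ξ) = 0 := by
          have h2 : fderiv ℝ (fun w : W => π (G (θ₀, (w : V)))) x₁ ξ = 0 := hξ
          rw [hfd] at h2
          exact h2
        have h3 : ((π (fderiv ℝ (fun z => G (θ₀, z)) x₀ ξ) : W) : V) =
            fderiv ℝ (fun z => G (θ₀, z)) x₀ ξ :=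
          congrArg (fun T : W →L[ℝ] V => T ξ) hU
        rw [h1] at h3
        obtain ⟨a, b, hab⟩ := hker ξ ξ.2 h3.symm
        refine ⟨(a, b), ?_⟩
        show a • e₁ + b • e₂ = (ξ : V)
        exact hab.symm
      have h1 := Submodule.finrank_mono hle
      have h2 : finrank ℝ (LinearMap.range Λ) ≤ finrank ℝ (ℝ × ℝ) := LinearMap.finrank_range_le Λ
      have h3 := LinearEquiv.finrank_eq (Submodule.equivMapOfInjective W.subtype
        (Submodule.injective_subtype W)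
        (LinearMap.ker (fderiv ℝ (fun w : W => π (G (θ₀, (w : V)))) x₁ : W →ₗ[ℝ] W)))
      rw [h3]
      exact h1.trans h2)
  -- the end
  obtain ⟨A, hA, B, hB, hAB⟩ := mem_nhds_prod_iff.1 hW'
  have hN' : (fun w : W => (w : V)) ⁻¹' N ∈ 𝓝 x₁ := hιc.continuous.continuousAt hN
  filter_upwards [hcore _ (inter_mem hN' hB), hA] with θ hθ hθA
  obtain ⟨z, ⟨hz1, hz2⟩, hz3⟩ := hθ
  refine ⟨(z : V), hz1, z.2, ?_⟩
  have h1 : G (θ, (z : V)) ∈ W := hAB (Set.mk_mem_prod hθA hz2)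
  have h2 : ((π (G (θ, (z : V))) : W) : V) = G (θ, (z : V)) :=
    congrArg Subtype.val (hπ ⟨_, h1⟩)
  have h3 : π (G (θ, (z : V))) = 0 := hz3
  rw [← h2, h3]
  rfl

end Pool.Agent.NH62.LN
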