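import Pool.Agent.NH62.LN.Stm

/-! Project LN, job LN-NBD: bounds for the distances and neighbourhoods (helper89). -/

set_option autoImplicit false

open Pool.Agent.W821.TB Filter Topology

namespace Pool.Agent.NH62.LN

namespace NBD

/-- bounds for a positive continuous periodic function -/
lemma bd {f : ℝ → ℝ} {τ : ℝ} (hτ : 0 < τ) (hc : Continuous f) (hp : ∀ t, f (t + τ) = f t)
    (h0 : ∀ t, 0 < f t) : ∃ c C : ℝ, 0 < c ∧ ∀ t, c < f t ∧ f t < C := by
  have hP : Function.Periodic f τ := hp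
  have hK : IsCompact (Set.range f) := hP.compact_of_continuous hτ.ne' hc
  have hne : (Set.range f).Nonempty := ⟨f 0, 0, rfl⟩
  obtain ⟨a, ⟨s, hs⟩, ha⟩ := hK.exists_isLeast hne
  obtain ⟨b, -, hb⟩ := hK.exists_isGreatest hne
  have ha0 : 0 < a := by
    rw [← hs]
    exact h0 s
  refine ⟨a / 2, b + 1, by linarith, fun t => ⟨?_, ?_⟩⟩
  · have h1 : a ≤ f t := ha ⟨t, rfl⟩
    linarith
  · have h1 : f t ≤ b := hb ⟨t, rfl⟩
    linarith

/-- the set of the good points is open -/
lemma isOpen_good {n : ℕ} (A R : ℝ) : IsOpen {z : Ph n | Good A R z} := by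
  have h : {z : Ph n | Good A R z} = ⋂ a : Fin n, ⋂ b : Fin n, ⋂ _ : a ≠ b,
      ({z : Ph n | 2 * A < ‖z.1 b - z.1 a‖ ^ 2} ∩ {z : Ph n | ‖z.1 b - z.1 a‖ ^ 2 < R}) := by
    ext z
    simp only [Set.mem_iInter, Set.mem_setOf_eq, Set.mem_inter_iff, Good]
  rw [h]
  refine isOpen_iInter_of_finite fun a => isOpen_iInter_of_finite fun b =>
    isOpen_iInter_of_finite fun _ => ?_
  have hc : Continuous fun z : Ph n => ‖z.1 b - z.1 a‖ ^ 2 :=
    ((((continuous_apply b).comp continuous_fst).sub ((continuous_apply a).comp continuous_fst)).norm).pow 2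
  exact (isOpen_lt continuous_const hc).inter (isOpen_lt hc continuous_const)

end NBD

open NBD in
/-- LN-NBD -/
theorem t_NBD : S_NBD := by
  refine ⟨?_, ?_⟩
  · intro n x τ hτ hx hp hne
    have h : ∀ p : Fin n × Fin n, ∃ c C : ℝ, 0 < c ∧ (p.1 ≠ p.2 → ∀ t,
        c < ‖(x t).1 p.2 - (x t).1 p.1‖ ^ 2 ∧ ‖(x t).1 p.2 - (x t).1 p.1‖ ^ 2 < C) := by
      intro p
      by_cases hpp : p.1 = p.2
      · exact ⟨1, 0, one_pos, fun h => absurd hpp h⟩
      · obtain ⟨c, C, h1, h2⟩ := bd (f := fun t => ‖(x t).1 p.2 - (x t).1 p.1‖ ^ 2) hτ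
          (((((continuous_apply p.2).comp (continuous_fst.comp hx)).sub
            ((continuous_apply p.1).comp (continuous_fst.comp hx))).norm).pow 2)
          (fun t => by
            show ‖(x (t + τ)).1 p.2 - (x (t + τ)).1 p.1‖ ^ 2 = ‖(x t).1 p.2 - (x t).1 p.1‖ ^ 2
            rw [hp])
          (fun t => by
            have h3 : (x t).1 p.2 - (x t).1 p.1 ≠ 0 := sub_ne_zero.2 (hne t p.2 p.1 (Ne.symm hpp))
            have h4 : 0 < ‖(x t).1 p.2 - (x t).1 p.1‖ := norm_pos_iff.2 h3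
            exact pow_pos h4 2)
        exact ⟨c, C, h1, fun _ => h2⟩
    choose c C hc hC using h
    have hA : ∀ᶠ A in 𝓝[>] (0 : ℝ), ∀ p, 2 * A < c p := eventually_all.2 fun p => by
      have h1 : (0 : ℝ) < c p / 2 := by linarith [hc p]
      filter_upwards [Ioo_mem_nhdsGT h1] with A hA
      linarith [hA.2]
    have hR : ∀ᶠ R in atTop, ∀ p, C p < R := eventually_all.2 fun p => eventually_gt_atTop (C p)
    obtain ⟨A, hA0, hA1⟩ := (eventually_mem_nhdsWithin.and hA).exists
    obtain ⟨R, hR1⟩ := hR.exists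
    exact ⟨A, R, hA0, fun t a b hab => ⟨(hA1 (a, b)).trans (hC (a, b) hab t).1,
      (hC (a, b) hab t).2.trans (hR1 (a, b))⟩⟩
  · intro n g A R τ x₀ hg hgood
    refine isCompact_Icc.eventually_forall_of_forall_eventually
      (P := fun z t => Good A R (g t z)) fun t ht => ?_
    have hc : Continuous fun p : Ph n × ℝ => g p.2 p.1 := hg.comp (continuous_snd.prodMk continuous_fst)
    exact ((isOpen_good A R).preimage hc).mem_nhds (hgood t ht)

end Pool.Agent.NH62.LN
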