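import Pool.Agent.NH62.LN.Stm

/-!
# The regularised Newtonian vector field is C^1 and Lipschitz
-/

set_option autoImplicit false

namespace Pool.Agent.NH62.LN.REG

open Pool.Agent.NH62.LN Pool.Agent.W821.TB Filter Topology
open scoped NNReal

theorem fr_smooth (A R : ℝ) (hA : 0 < A) : ContDiff ℝ 1 (Fr A R) := by
  rw [contDiff_iff_contDiffAt]
  intro w
  by_cases hw : w = 0
  · have hev : Fr A R =ᶠ[𝓝 w] fun _ => (0 : ℂ) := by
      have hc : Continuous fun v : ℂ => ‖v‖ ^ 2 := by fun_prop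
      have h0 : ∀ᶠ v in 𝓝 w, ‖v‖ ^ 2 < A := by
        apply hc.continuousAt.eventually_lt continuousAt_const
        rw [hw]
        simpa using hA
      filter_upwards [h0] with v hv
      have h1 : (‖v‖ ^ 2 - A) / A ≤ 0 := div_nonpos_of_nonpos_of_nonneg (by linarith) hA.le
      unfold Fr
      rw [Real.smoothTransition.zero_of_nonpos h1]
      simp
    exact contDiffAt_const.congr_of_eventuallyEq hev
  · have hn : ContDiffAt ℝ 1 (fun v : ℂ => ‖v‖) w := contDiffAt_norm ℝ hw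
    have hn2 : ContDiffAt ℝ 1 (fun v : ℂ => ‖v‖ ^ 2) w := hn.pow 2
    have hn3 : ContDiffAt ℝ 1 (fun v : ℂ => ‖v‖ ^ 3) w := hn.pow 3
    have hT : ContDiff ℝ 1 Real.smoothTransition := Real.smoothTransition.contDiff (n := 1)
    have h1 : ContDiffAt ℝ 1 (fun v : ℂ => Real.smoothTransition ((‖v‖ ^ 2 - A) / A)) w :=
      hT.contDiffAt.comp w ((hn2.sub contDiffAt_const).div_const A)
    have h2 : ContDiffAt ℝ 1 (fun v : ℂ => 1 - Real.smoothTransition (‖v‖ ^ 2 - R)) w :=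
      contDiffAt_const.sub (hT.contDiffAt.comp w (hn2.sub contDiffAt_const))
    have h3 : ContDiffAt ℝ 1 (fun v : ℂ => Real.smoothTransition ((‖v‖ ^ 2 - A) / A) *
        (1 - Real.smoothTransition (‖v‖ ^ 2 - R)) / ‖v‖ ^ 3) w :=
      (h1.mul h2).div hn3 (pow_ne_zero 3 (norm_ne_zero_iff.2 hw))
    have h4 : ContDiffAt ℝ 1 (fun v : ℂ => Complex.ofRealCLM (Real.smoothTransition ((‖v‖ ^ 2 - A) / A) *
        (1 - Real.smoothTransition (‖v‖ ^ 2 - R)) / ‖v‖ ^ 3)) w :=
      Complex.ofRealCLM.contDiff.contDiffAt.comp w h3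
    exact h4.mul contDiffAt_id

theorem fr_supp (A R : ℝ) : HasCompactSupport (Fr A R) := by
  apply HasCompactSupport.intro (isCompact_closedBall (0 : ℂ) (|R| + 1))
  intro w hw
  have h1 : |R| + 1 < ‖w‖ := by
    simpa [Metric.mem_closedBall, dist_zero_right, not_le] using hw
  have h2 : 1 ≤ ‖w‖ ^ 2 - R := by
    have h3 := abs_nonneg R
    have h4 := le_abs_self R
    nlinarith
  unfold Fr
  rw [Real.smoothTransition.one_of_one_le h2]
  simp

theorem fr_lip (A R : ℝ) (hA : 0 < A) : ∃ K : ℝ≥0, LipschitzWith K (Fr A R) :=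
  ContDiff.lipschitzWith_of_hasCompactSupport (fr_supp A R) (fr_smooth A R hA) (by simp)

theorem x_smooth (n : ℕ) (m : Fin n → ℝ) (A R : ℝ) (hA : 0 < A) : ContDiff ℝ 1 (X m A R) := by
  unfold X
  refine contDiff_snd.prodMk (contDiff_pi.2 fun a => ContDiff.sum fun b _ => ?_)
  refine contDiff_const.mul ((fr_smooth A R hA).comp ?_)
  exact ((contDiff_apply ℝ ℂ b).comp contDiff_fst).sub ((contDiff_apply ℝ ℂ a).comp contDiff_fst)

theorem x_lip (n : ℕ) (m : Fin n → ℝ) (A R : ℝ) (hA : 0 < A) :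
    ∃ K : ℝ≥0, LipschitzWith K (X m A R) := by
  obtain ⟨K, hK⟩ := fr_lip A R hA
  have hK0 : (0 : ℝ) ≤ K := K.2
  have hM : (0 : ℝ) ≤ ∑ b, |m b| := Finset.sum_nonneg fun b _ => abs_nonneg _
  let C : ℝ≥0 := 1 + ⟨∑ b, |m b|, hM⟩ * (K * 2)
  refine ⟨C, LipschitzWith.of_dist_le_mul fun x y => ?_⟩
  have hC : (C : ℝ) = 1 + (∑ b, |m b|) * (K * 2) := rfl
  have hd := dist_nonneg (x := x) (y := y)
  have hCp : 0 ≤ (∑ b, |m b|) * ((K : ℝ) * 2) := by positivity
  rw [Prod.dist_eq]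
  refine max_le ?_ ?_
  · show dist x.2 y.2 ≤ _
    have h1 : dist x.2 y.2 ≤ dist x y := by rw [Prod.dist_eq]; exact le_max_right _ _
    rw [hC]
    nlinarith
  · rw [dist_pi_le_iff (by positivity)]
    intro a
    have h1 : dist x.1 y.1 ≤ dist x y := by rw [Prod.dist_eq]; exact le_max_left _ _
    show dist (∑ b ∈ Finset.univ.erase a, (m b : ℂ) * Fr A R (x.1 b - x.1 a))
      (∑ b ∈ Finset.univ.erase a, (m b : ℂ) * Fr A R (y.1 b - y.1 a)) ≤ _
    have h2 : ∀ b, dist ((m b : ℂ) * Fr A R (x.1 b - x.1 a)) ((m b : ℂ) * Fr A R (y.1 b - y.1 a)) ≤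
        |m b| * (K * 2 * dist x y) := by
      intro b
      have h3 := hK.dist_le_mul (x.1 b - x.1 a) (y.1 b - y.1 a)
      have h4 : dist (x.1 b - x.1 a) (y.1 b - y.1 a) ≤ 2 * dist x y := by
        have h5 := dist_sub_sub_le (x.1 b) (x.1 a) (y.1 b) (y.1 a)
        have h6 := dist_le_pi_dist x.1 y.1 b
        have h7 := dist_le_pi_dist x.1 y.1 a
        linarith
      rw [dist_eq_norm, ← mul_sub, norm_mul, Complex.norm_real, Real.norm_eq_abs, ← dist_eq_norm]
      refine mul_le_mul_of_nonneg_left ?_ (abs_nonneg _)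
      calc _ ≤ (K : ℝ) * dist (x.1 b - x.1 a) (y.1 b - y.1 a) := h3
        _ ≤ K * (2 * dist x y) := mul_le_mul_of_nonneg_left h4 hK0
        _ = _ := by ring
    calc _ ≤ ∑ b ∈ Finset.univ.erase a, dist ((m b : ℂ) * Fr A R (x.1 b - x.1 a))
          ((m b : ℂ) * Fr A R (y.1 b - y.1 a)) := dist_sum_sum_le _ _ _
      _ ≤ ∑ b ∈ Finset.univ.erase a, |m b| * (K * 2 * dist x y) :=
          Finset.sum_le_sum fun b _ => h2 b
      _ ≤ ∑ b, |m b| * (K * 2 * dist x y) :=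
          Finset.sum_le_sum_of_subset_of_nonneg (Finset.erase_subset _ _)
            fun b _ _ => by positivity
      _ = (∑ b, |m b|) * (K * 2) * dist x y := by rw [← Finset.sum_mul]; ring
      _ ≤ C * dist x y := by
          rw [hC]
          nlinarith

end Pool.Agent.NH62.LN.REG

namespace Pool.Agent.NH62.LN

theorem t_REG : S_REG := fun n m A R hA => ⟨REG.x_smooth n m A R hA, REG.x_lip n m A R hA⟩

end Pool.Agent.NH62.LN
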