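import Pool.Agent.NH62.LN.Asm
import Pool.Agent.NH62.LN.ALG
import Pool.Agent.NH62.LN.FLO
import Pool.Agent.NH62.LN.INV
import Pool.Agent.NH62.LN.IND
import Pool.Agent.NH62.LN.Cons
import Pool.Agent.NH62.LN.NBD
import Pool.Agent.NH62.LN.REG
import Pool.Agent.NH62.LN.LIN

/-!
# Lyapunov stable relative periodic orbits are degenerate
-/

set_option autoImplicit false

namespace Pool.Agent.NH62.LN

open Pool.Agent.W821.TB Filter Topology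

variable {n : ℕ} {m : Fin n → ℝ}

theorem main2 (hn : 2 ≤ n) (hm : ∀ a, 0 < m a) {x : ℝ → Ph n} (hx : IsSol m Set.univ x) {T : ℝ} (hT : DistPer x T)
    (hne : ¬ IsRelEq x) :
    (∃ c : ℂ, ‖c‖ = 1 ∧ ∀ t, x (t + 2 * T) = c • x t) ∧
    ∀ (τ : ℝ) (c : ℂ), 0 < τ → ‖c‖ = 1 → (∀ t, x (t + τ) = c • x t) →
      (∀ ξ : ℝ → Ph n, ((∀ t, ξ t ∈ com m) ∧ (∀ t, HasDerivAt ξ (fderiv ℝ (vf m) (x t) (ξ t)) t) ∧
        ∀ t, ξ (t + τ) = c • ξ t) → ∃ α β : ℝ, ∀ t, ξ t = α • vf m (x t) + β • (Complex.I • x t)) →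
      ¬ LyapunovStable m (Set.range x) := by
  refine ⟨rot_of_distPer Pool.Agent.W827.TB.Gram.main hn hm hx hT, fun τ c hτ hc hper hnd => ?_⟩
  exact asm t_REG t_ALG t_FLO t_INV t_LIN t_SMO (t_IND t_SMO) t_CON t_NBD hn hm hx hτ hc hper hne
    (fun ξ h1 h2 h3 => hnd ξ ⟨h1, h2, h3⟩)

end Pool.Agent.NH62.LN
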