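import Pool.Agent.NH62.LN.Asm2
import Pool.Agent.NH62.LN.Main

/-!
# Lyapunov stable relative periodic orbits have a neighbourhood without nondegenerate relative periodic orbits
-/

set_option autoImplicit false

namespace Pool.Agent.NH62.LN

open Pool.Agent.W821.TB Filter Topology

variable {n : ℕ} {m : Fin n → ℝ}

theorem main3 (hn : 2 ≤ n) (hm : ∀ a, 0 < m a) {x : ℝ → Ph n} (hx : IsSol m Set.univ x) {T : ℝ} (hT0 : 0 < T)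
    (hT : DistPer x T) (hne : ¬ IsRelEq x) (hst : LyapunovStable m (Set.range x)) :
    ∃ U : Set (Ph n), IsOpen U ∧ Set.range x ⊆ U ∧ ∀ y : ℝ → Ph n, IsSol m Set.univ y → y 0 ∈ U → ¬ IsRelEq y →
      ∀ (τ : ℝ) (c : ℂ), 0 < τ → ‖c‖ = 1 → (∀ t, y (t + τ) = c • y t) →
      ¬ (∀ ξ : ℝ → Ph n, ((∀ t, ξ t ∈ com m) ∧ (∀ t, HasDerivAt ξ (fderiv ℝ (vf m) (y t) (ξ t)) t) ∧
        ∀ t, ξ (t + τ) = c • ξ t) → ∃ α β : ℝ, ∀ t, ξ t = α • vf m (y t) + β • (Complex.I • y t)) := by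
  rcases final hn hm hx hT0 hT hst with h | ⟨K₁, hK₁, -, U, hU, hxU, hlock, -⟩
  · exact absurd h hne
  refine ⟨U, hU, hxU, fun y hy hyU hney τ c hτ hc hper hnd => ?_⟩
  exact asm2 t_REG t_ALG t_FLO t_INV t_LIN t_SMO (t_IND t_SMO) t_CON t_NBD hn hm hy hτ hc hper hney
    (fun ξ h1 h2 h3 => hnd ξ ⟨h1, h2, h3⟩) hK₁ hU hyU hlock

theorem rot2 (hn : 2 ≤ n) (hm : ∀ a, 0 < m a) {x : ℝ → Ph n} (hx : IsSol m Set.univ x) {T : ℝ} (hT : DistPer x T) :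
    ∃ c : ℂ, ‖c‖ = 1 ∧ ∀ t, x (t + 2 * T) = c • x t :=
  rot_of_distPer Pool.Agent.W827.TB.Gram.main hn hm hx hT

end Pool.Agent.NH62.LN
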