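import Mathlib
import Pool.Agent.W821.TB.Base

/-!
# Nondegenerate relative periodic orbits are not Lyapunov stable: definitions and statements of the parts
-/

set_option autoImplicit false

namespace Pool.Agent.NH62.LN

open Pool.Agent.W821.TB Filter Topology
open scoped NNReal

/-- the centre of mass frame -/
def com {n : ℕ} (m : Fin n → ℝ) : Submodule ℝ (Ph n) where
  carrier := {z | ∑ a, (m a : ℂ) * z.1 a = 0 ∧ ∑ a, (m a : ℂ) * z.2 a = 0}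
  add_mem' := by
    rintro z w ⟨h1, h2⟩ ⟨h3, h4⟩
    constructor
    · have : ∑ a, (m a : ℂ) * (z + w).1 a = ∑ a, (m a : ℂ) * z.1 a + ∑ a, (m a : ℂ) * w.1 a := by
        rw [← Finset.sum_add_distrib]; exact Finset.sum_congr rfl fun a _ => by simp [mul_add]
      rw [this, h1, h3, add_zero]
    · have : ∑ a, (m a : ℂ) * (z + w).2 a = ∑ a, (m a : ℂ) * z.2 a + ∑ a, (m a : ℂ) * w.2 a := by
        rw [← Finset.sum_add_distrib]; exact Finset.sum_congr rfl fun a _ => by simp [mul_add]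
      rw [this, h2, h4, add_zero]
  zero_mem' := by simp
  smul_mem' := by
    rintro r z ⟨h1, h2⟩
    constructor
    · have : ∑ a, (m a : ℂ) * (r • z).1 a = r * ∑ a, (m a : ℂ) * z.1 a := by
        rw [Finset.mul_sum]; exact Finset.sum_congr rfl fun a _ => by simp; ring
      rw [this, h1, mul_zero]
    · have : ∑ a, (m a : ℂ) * (r • z).2 a = r * ∑ a, (m a : ℂ) * z.2 a := by
        rw [Finset.mul_sum]; exact Finset.sum_congr rfl fun a _ => by simp; ring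
      rw [this, h2, mul_zero]

/-- total energy -/
noncomputable def energy {n : ℕ} (m : Fin n → ℝ) (z : Ph n) : ℝ :=
  (∑ a, m a * ‖z.2 a‖ ^ 2) / 2 -
    (∑ a, ∑ b ∈ Finset.univ.erase a, m a * m b / ‖z.1 b - z.1 a‖) / 2

/-- angular momentum -/
noncomputable def angm {n : ℕ} (m : Fin n → ℝ) (z : Ph n) : ℝ :=
  ∑ a, m a * ((starRingEnd ℂ) (z.1 a) * z.2 a).im

/-- all mutual distances are constant -/
def IsRelEq {n : ℕ} (x : ℝ → Ph n) : Prop :=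
  ∀ t a b, ‖(x t).1 a - (x t).1 b‖ = ‖(x 0).1 a - (x 0).1 b‖

/-- the regularised attraction -/
noncomputable def Fr (A R : ℝ) (w : ℂ) : ℂ :=
  ((Real.smoothTransition ((‖w‖ ^ 2 - A) / A) * (1 - Real.smoothTransition (‖w‖ ^ 2 - R)) / ‖w‖ ^ 3 : ℝ) : ℂ) * w

/-- the regularised Newtonian vector field -/
noncomputable def X {n : ℕ} (m : Fin n → ℝ) (A R : ℝ) (z : Ph n) : Ph n :=
  (z.2, fun a => ∑ b ∈ Finset.univ.erase a, (m b : ℂ) * Fr A R (z.1 b - z.1 a))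

/-- the points where the regularised vector field is the Newtonian one -/
def Good {n : ℕ} (A R : ℝ) (z : Ph n) : Prop :=
  ∀ a b, a ≠ b → 2 * A < ‖z.1 b - z.1 a‖ ^ 2 ∧ ‖z.1 b - z.1 a‖ ^ 2 < R

/-- REG -/
def S_REG : Prop := ∀ (n : ℕ) (m : Fin n → ℝ) (A R : ℝ), 0 < A →
  ContDiff ℝ 1 (X m A R) ∧ ∃ K : ℝ≥0, LipschitzWith K (X m A R)

/-- ALG -/
def S_ALG : Prop := ∀ (n : ℕ) (m : Fin n → ℝ) (A R : ℝ), 0 < A →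
  (∀ (c : ℂ) (z : Ph n), ‖c‖ = 1 → X m A R (c • z) = c • X m A R z) ∧
  (∀ z : Ph n, z ∈ com m → X m A R z ∈ com m) ∧
  (∀ z : Ph n, Good A R z → X m A R z = vf m z) ∧
  (∀ (c : ℂ) (z : Ph n), ‖c‖ = 1 → z ∈ com m → c • z ∈ com m) ∧
  (∀ (c : ℂ) (z : Ph n), ‖c‖ = 1 → energy m (c • z) = energy m z ∧ angm m (c • z) = angm m z) ∧
  (∀ (c : ℂ) (z : Ph n), ‖c‖ = 1 → Good A R z → Good A R (c • z)) ∧
  IsOpen {z : Ph n | Good A R z}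

/-- FLO -/
def S_FLO : Prop := ∀ (V : Type) [NormedAddCommGroup V] [NormedSpace ℝ V] [FiniteDimensional ℝ V] (F : V → V) (K : ℝ≥0),
  ContDiff ℝ 1 F → LipschitzWith K F → ∃ g : ℝ → V → V, (∀ z, g 0 z = z) ∧
    (∀ z t, HasDerivAt (fun s => g s z) (F (g t z)) t) ∧ ContDiff ℝ 1 (fun p : ℝ × V => g p.1 p.2) ∧
    (∀ y : ℝ → V, (∀ t, HasDerivAt y (F (y t)) t) → ∀ t s, y (t + s) = g s (y t)) ∧
    ∀ z ξ t, HasDerivAt (fun s => fderiv ℝ (g s) z ξ) (fderiv ℝ F (g t z) (fderiv ℝ (g t) z ξ)) t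

/-- INV -/
def S_INV : Prop := ∀ (V : Type) [NormedAddCommGroup V] [NormedSpace ℝ V] [FiniteDimensional ℝ V] (F : V → V) (K : ℝ≥0)
  (g : ℝ → V → V), ContDiff ℝ 1 F → LipschitzWith K F → (∀ z, g 0 z = z) →
    (∀ z t, HasDerivAt (fun s => g s z) (F (g t z)) t) →
    (∀ W : Submodule ℝ V, (∀ z ∈ W, F z ∈ W) → ∀ t, ∀ z ∈ W, g t z ∈ W) ∧
    (∀ L : V →L[ℝ] V, (∀ z, F (L z) = L (F z)) → ∀ t z, g t (L z) = L (g t z))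

/-- LIN -/
def S_LIN : Prop := ∀ (V : Type) [NormedAddCommGroup V] [NormedSpace ℝ V] [FiniteDimensional ℝ V] (W : Submodule ℝ V)
  (G : ℝ × V → V) (θ₀ : ℝ) (x₀ e₁ e₂ : V) (E J : V → ℝ), x₀ ∈ W → ContDiffAt ℝ 1 G (θ₀, x₀) → G (θ₀, x₀) = 0 →
  (∀ᶠ p in 𝓝 (θ₀, x₀), p.2 ∈ W → G p ∈ W) → ContDiffAt ℝ 1 E x₀ → ContDiffAt ℝ 1 J x₀ →
  (∀ᶠ p in 𝓝 (θ₀, x₀), p.2 ∈ W → E (p.2 + G p) = E p.2 ∧ J (p.2 + G p) = J p.2) →
  (∀ α β : ℝ, (∀ ξ ∈ W, α * fderiv ℝ E x₀ ξ + β * fderiv ℝ J x₀ ξ = 0) → α = 0 ∧ β = 0) →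
  (∀ ξ ∈ W, fderiv ℝ (fun z => G (θ₀, z)) x₀ ξ = 0 → ∃ a b : ℝ, ξ = a • e₁ + b • e₂) →
  ∀ N ∈ 𝓝 x₀, ∀ᶠ θ in 𝓝 θ₀, ∃ z ∈ N, z ∈ W ∧ G (θ, z) = 0

/-- SMO -/
def S_SMO : Prop := ∀ (n : ℕ) (m : Fin n → ℝ) (z : Ph n), (∀ a b, a ≠ b → z.1 a ≠ z.1 b) →
  ContDiffAt ℝ 1 (energy m) z ∧ ContDiffAt ℝ 1 (angm m) z

/-- IND -/
def S_IND : Prop := ∀ (n : ℕ) (m : Fin n → ℝ) (x : ℝ → Ph n), 2 ≤ n → (∀ a, 0 < m a) → IsSol m Set.univ x →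
  ¬ IsRelEq x → ∀ α β : ℝ,
    (∀ ξ ∈ com m, α * fderiv ℝ (energy m) (x 0) ξ + β * fderiv ℝ (angm m) (x 0) ξ = 0) → α = 0 ∧ β = 0

/-- CON -/
def S_CON : Prop := ∀ (n : ℕ) (m : Fin n → ℝ) (y : ℝ → Ph n) (τ : ℝ), 0 ≤ τ →
  (∀ t ∈ Set.Icc 0 τ, HasDerivAt y (vf m (y t)) t ∧ ∀ a b, a ≠ b → (y t).1 a ≠ (y t).1 b) →
  energy m (y τ) = energy m (y 0) ∧ angm m (y τ) = angm m (y 0)

/-- NBD -/
def S_NBD : Prop :=
  (∀ (n : ℕ) (x : ℝ → Ph n) (τ : ℝ), 0 < τ → Continuous x →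
    (∀ t a b, ‖(x (t + τ)).1 a - (x (t + τ)).1 b‖ = ‖(x t).1 a - (x t).1 b‖) →
    (∀ t a b, a ≠ b → (x t).1 a ≠ (x t).1 b) → ∃ A R : ℝ, 0 < A ∧ ∀ t, Good A R (x t)) ∧
  ∀ (n : ℕ) (g : ℝ → Ph n → Ph n) (A R τ : ℝ) (x₀ : Ph n), Continuous (fun p : ℝ × Ph n => g p.1 p.2) →
    (∀ t ∈ Set.Icc 0 τ, Good A R (g t x₀)) → ∀ᶠ z in 𝓝 x₀, ∀ t ∈ Set.Icc 0 τ, Good A R (g t z)

end Pool.Agent.NH62.LN
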